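import Pool.Agent.helper1.VD.SpecA2

set_option autoImplicit false

/-!
# MP_07c750, project VD, block A2, row AWAM: the formula of Jacobi and the amplitude

`AWAM_det`: the derivative of `det (Y t)` is `tr (Y' adj Y)`.
-/

open scoped ContDiff Topology InnerProductSpace ComplexConjugate ENNReal
open MeasureTheory Filter Set

namespace Pool.Agent.VD

/-- the determinant with one column replaced -/
theorem AWAM_upd {d : ℕ} (A : MC d) (c : Fin d → ℂ) (i : Fin d) : (A.updateCol i c).det = ∑ σ : Equiv.Perm (Fin d), ((Equiv.Perm.sign σ : ℤ) : ℂ) * ((∏ j ∈ Finset.univ.erase i, A (σ j) j) * c (σ i)) := by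
  rw [Matrix.det_apply']
  refine Finset.sum_congr rfl fun σ _ => ?_
  congr 1
  rw [← Finset.mul_prod_erase Finset.univ _ (Finset.mem_univ i), mul_comm]
  congr 1
  · refine Finset.prod_congr rfl fun j hj => ?_
    rw [Matrix.updateCol_ne (Finset.ne_of_mem_erase hj)]
  · rw [Matrix.updateCol_self]

/-- **Jacobi's formula** -/
theorem AWAM_det {d : ℕ} (Y : ℝ → MC d) (Y' : MC d) (t : ℝ) (h : ∀ i j, HasDerivAt (fun s => Y s i j) (Y' i j) t) :
    HasDerivAt (fun s => (Y s).det) (Matrix.trace (Y' * (Y t).adjugate)) t := by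
  have h1 : HasDerivAt (fun s => ∑ σ : Equiv.Perm (Fin d), ((Equiv.Perm.sign σ : ℤ) : ℂ) * ∏ i, Y s (σ i) i)
      (∑ σ : Equiv.Perm (Fin d), ((Equiv.Perm.sign σ : ℤ) : ℂ) * ∑ i, (∏ j ∈ Finset.univ.erase i, Y t (σ j) j) • Y' (σ i) i) t := by
    refine HasDerivAt.fun_sum fun σ _ => HasDerivAt.const_mul _ ?_
    exact HasDerivAt.fun_finsetProd fun i _ => h (σ i) i
  have h2 : (fun s => (Y s).det) = fun s => ∑ σ : Equiv.Perm (Fin d), ((Equiv.Perm.sign σ : ℤ) : ℂ) * ∏ i, Y s (σ i) i := by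
    funext s
    exact Matrix.det_apply' _
  have h3 : Matrix.trace (Y' * (Y t).adjugate) = ∑ σ : Equiv.Perm (Fin d), ((Equiv.Perm.sign σ : ℤ) : ℂ) * ∑ i, (∏ j ∈ Finset.univ.erase i, Y t (σ j) j) • Y' (σ i) i := by
    rw [Matrix.trace_mul_comm]
    have h4 : ∀ i, ((Y t).adjugate * Y') i i = ((Y t).updateCol i (fun k => Y' k i)).det := by
      intro i
      rw [← Matrix.cramer_apply, Matrix.cramer_eq_adjugate_mulVec]
      rfl
    unfold Matrix.trace
    simp only [Matrix.diag_apply, h4, AWAM_upd]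
    rw [Finset.sum_comm]
    refine Finset.sum_congr rfl fun σ _ => ?_
    rw [Finset.mul_sum]
    refine Finset.sum_congr rfl fun i _ => ?_
    rw [smul_eq_mul]
  rw [h2, h3]
  exact h1

theorem AWAM_proof : AWAM_stmt := by
  intro d Y hY hdet t
  have hYc : Continuous Y := by
    refine continuous_matrix fun i j => (hY i j).continuous
  have hYd : ∀ (s : ℝ) (i j : Fin d), HasDerivAt (fun u => Y u i j) (deriv (fun u => Y u i j) s) s := fun s i j => ((hY i j).differentiable (by simp) s).hasDerivAt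
  have hY'c : Continuous (fun r => (Matrix.of fun i j => deriv (fun u => Y u i j) r : MC d)) := by
    refine continuous_matrix fun i j => ?_
    exact (hY i j).continuous_deriv (le_refl _)
  have hdc : Continuous fun r => (Y r).det := hYc.matrix_det
  have hinv : ∀ r, (Y r)⁻¹ = ((Y r).det)⁻¹ • (Y r).adjugate := by
    intro r
    rw [Matrix.inv_def, Ring.inverse_eq_inv']
  have hic : Continuous fun r => (Y r)⁻¹ := by
    simp only [hinv]
    exact (hdc.inv₀ hdet).smul hYc.matrix_adjugate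
  have hfc : Continuous (fun r => Matrix.trace ((Matrix.of fun i j => deriv (fun u => Y u i j) r : MC d) * (Y r)⁻¹)) :=
    (hY'c.matrix_mul hic).matrix_trace
  have hF : ∀ s : ℝ, HasDerivAt (fun s => ∫ r in (0 : ℝ)..s, Matrix.trace ((Matrix.of fun i j => deriv (fun u => Y u i j) r : MC d) * (Y r)⁻¹))
      (Matrix.trace ((Matrix.of fun i j => deriv (fun u => Y u i j) s : MC d) * (Y s)⁻¹)) s := fun s =>
    intervalIntegral.integral_hasDerivAt_right (hfc.intervalIntegrable _ _) (hfc.stronglyMeasurableAtFilter _ _) hfc.continuousAt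
  have hA : ∀ s : ℝ, HasDerivAt (fun s => Complex.exp (-(1 / 2) * ∫ r in (0 : ℝ)..s, Matrix.trace ((Matrix.of fun i j => deriv (fun u => Y u i j) r : MC d) * (Y r)⁻¹)))
      (-(1 / 2) * Matrix.trace ((Matrix.of fun i j => deriv (fun u => Y u i j) s : MC d) * (Y s)⁻¹) *
        Complex.exp (-(1 / 2) * ∫ r in (0 : ℝ)..s, Matrix.trace ((Matrix.of fun i j => deriv (fun u => Y u i j) r : MC d) * (Y r)⁻¹))) s := by
    intro s
    have h1 := ((hF s).const_mul (-(1 / 2) : ℂ)).cexp
    rw [mul_comm] at h1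
    exact h1
  refine ⟨hA t, ?_⟩
  have hD : ∀ s : ℝ, HasDerivAt (fun s => (Y s).det) (Matrix.trace ((Matrix.of fun i j => deriv (fun u => Y u i j) s : MC d) * (Y s).adjugate)) s := fun s =>
    AWAM_det Y _ s fun i j => hYd s i j
  have hZ : ∀ s : ℝ, HasDerivAt (fun s => Complex.exp (-(1 / 2) * ∫ r in (0 : ℝ)..s, Matrix.trace ((Matrix.of fun i j => deriv (fun u => Y u i j) r : MC d) * (Y r)⁻¹)) ^ 2 * (Y s).det) 0 s := by
    intro s
    have h1 := ((hA s).pow 2).mul (hD s)
    have h2 : Matrix.trace ((Matrix.of fun i j => deriv (fun u => Y u i j) s : MC d) * (Y s)⁻¹) * (Y s).det = Matrix.trace ((Matrix.of fun i j => deriv (fun u => Y u i j) s : MC d) * (Y s).adjugate) := by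
      rw [hinv s, Matrix.mul_smul, Matrix.trace_smul, smul_eq_mul]
      field_simp [hdet s]
    rw [← h2] at h1
    refine h1.congr_deriv ?_
    simp only [Nat.cast_ofNat, Pi.pow_apply]
    ring
  have hconst := is_const_of_deriv_eq_zero (fun s => (hZ s).differentiableAt) (fun s => (hZ s).deriv) t 0
  rw [hconst]
  simp

end Pool.Agent.VD
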