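import Pool.Agent.helper62.VD.SpecL2

set_option autoImplicit false

/-!
# MP_07c750, project VD, block A5, row ALCC: change of the chart of a beam after one unit of time
-/

open scoped ContDiff Topology InnerProductSpace ComplexConjugate ENNReal
open MeasureTheory Filter Set

namespace Pool.Agent.VD

open Pool.Agent.VQ (CH cmZ)

theorem ALCC_lag {d : ℕ} {L L' : ℝ} {Y P : MC d} (h : Lag L Y P) (hL : L ≤ L') : Lag L' Y P :=
  ⟨h.sym, h.pos, fun i j => (h.bdY i j).trans hL, fun i j => (h.bdP i j).trans hL⟩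

theorem ALCC_nnc {d : ℕ} (G : V d → V d →L[ℝ] V d) (F : Set (V d)) (c : ℂ) (φ : V d → ℂ) : nn G F (fun z => c * φ z) = ‖c‖ ^ 2 * nn G F φ := by
  unfold nn
  rw [← integral_const_mul]
  refine integral_congr_ae (Filter.Eventually.of_forall fun y => ?_)
  simp only [norm_mul, mul_pow]

theorem ALCC_proof (h1 : ABMA_stmt) (h2 : ABMC_stmt) (h3 : ALCH_stmt) (h4 : ALFX_stmt) (h5 : ACNF_stmt) (h7 : ALPN_stmt) (h8 : ALSY_stmt) : ALCC_stmt := by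
  intro d Γ _ _ K k B r hK hr
  obtain ⟨CN, hCN, hN⟩ := h5 d Γ K k B r 1 hK
  obtain ⟨CA, hCA, hA⟩ := h1 d Γ K k B r hK
  obtain ⟨CB, hCB, hB⟩ := h2 d Γ K k B (max r CN + 1) hK
  obtain ⟨CP, hCP, hP⟩ := h7 d Γ K k B r
  obtain ⟨CY, hCY, -, hY, -⟩ := h8 d 1
  have hd0 : (0 : ℝ) ≤ d := Nat.cast_nonneg d
  have hdCB : 0 ≤ (d : ℝ) * CB := by positivity
  set C := CA + 4 * CB + d * CB + 4 with hCdef
  refine ⟨C, by rw [hCdef]; linarith, ?_⟩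
  intro ch e ζ2 hch he hζ hCe hCζ
  have ee : ∀ X : ℝ, X ≤ C → X * e ≤ ζ2 := fun X hX => (mul_le_mul_of_nonneg_right hX he).trans hCe
  have ez : ∀ X : ℝ, X ≤ C → X * ζ2 ≤ 1 := fun X hX => (mul_le_mul_of_nonneg_right hX hζ.le).trans hCζ
  have hCBp : 0 < CB := by linarith
  set e' := ζ2 / CB with he'
  have he'p : 0 < e' := by positivity
  have hRg : Rg CB e' ζ2 ζ2 := ⟨he'p.le, hζ, le_refl _, by rw [he', mul_div_cancel₀ _ hCBp.ne'], ez CB (by rw [hCdef]; linarith)⟩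
  obtain ⟨RB, hRB, hB⟩ := hB ch 0 e' ζ2 ζ2 hch hRg
  obtain ⟨R1, hRx⟩ : ∃ R1 : ℝ, ∀ R : ℝ, R1 ≤ R → CA ≤ R ^ (e' / 2) ∧ CA ^ 2 * CP ≤ R ^ ζ2 := by
    have t1 := (tendsto_rpow_atTop (show 0 < e' / 2 by positivity)).eventually_ge_atTop CA
    have t2 := (tendsto_rpow_atTop hζ).eventually_ge_atTop (CA ^ 2 * CP)
    obtain ⟨R1, hR1⟩ := Filter.eventually_atTop.1 (t1.and t2)
    exact ⟨R1, fun R hR => hR1 R hR⟩
  refine ⟨max RB (max R1 1), (le_max_right R1 1).trans (le_max_right _ _), ?_⟩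
  intro R G Φ g κ q Y0 P0 hR hOK hq hE hq' hL
  have hRB' : RB ≤ R := (le_max_left _ _).trans hR
  have hR1' : R1 ≤ R := (le_max_left _ _).trans ((le_max_right _ _).trans hR)
  have hR1 : (1 : ℝ) ≤ R := (le_max_right _ _).trans ((le_max_right _ _).trans hR)
  have hRp : (0 : ℝ) < R := lt_of_lt_of_le one_pos hR1
  obtain ⟨t1, t2⟩ := hRx R hR1'
  have hcls := hOK.cls
  obtain ⟨hlsm, -, -, -, -, -, -, -, -, -, -⟩ := h4 d Γ K k B G Φ hOK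
  have hHam : Ham G q ≤ 2 := by
    have h := (abs_le.1 hE).2
    unfold Ep at h
    linarith
  obtain ⟨hx1, hx2, -⟩ := hN G Φ hOK q 1 hq hHam (by simp)
  have hRe : 1 ≤ R ^ e := Real.one_le_rpow hR1 he
  obtain ⟨hL1, hdet1, hamp, hampn, -, -, -⟩ := hA G Φ q 1 (R ^ e) Y0 P0 hOK hq hE (by simp) hRe hL
  -- larger exponent
  have hexp : CA * R ^ e ≤ R ^ e' := by
    have h10 : R ^ e ≤ R ^ (e' / 2) := by
      refine Real.rpow_le_rpow_of_exponent_le hR1 ?_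
      have h11 := ee (2 * CB) (by rw [hCdef]; linarith)
      rw [he', div_div, le_div_iff₀ (by positivity)]
      linarith
    calc CA * R ^ e ≤ R ^ (e' / 2) * R ^ (e' / 2) := mul_le_mul t1 h10 (by positivity) (by positivity)
      _ = R ^ e' := by rw [← Real.rpow_add hRp]; congr 1; ring
  have hL1' := ALCC_lag hL1 hexp
  have hSG : κ⁻¹ ∈ SG Γ d (max r CN + 1) := by
    refine ⟨(Φ 1 q).1, ?_, ?_⟩
    · exact hx1.trans (by linarith [le_max_right r CN])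
    · have : ‖κ⁻¹ • (Φ 1 q).1‖ ≤ r := hq'
      exact this.trans (by linarith [le_max_left r CN])
  obtain ⟨hL2, hdet2, hPk⟩ := hB R G κ⁻¹ (Φ 1 q) _ _ hRB' hcls hSG (by linarith [le_max_right r CN]) (by linarith [le_max_right r CN]) hL1'
  -- the chain rule
  have hΦd : DifferentiableAt ℝ (Φ 1) q := by
    have hc : ContDiff ℝ ∞ (Φ 1) := hOK.flow.smooth.comp (contDiff_const.prodMk contDiff_id)
    exact hc.differentiable (by simp) q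
  have hld : DifferentiableAt ℝ (lft κ⁻¹ : P d → P d) (Φ 1 q) := (hlsm κ⁻¹).differentiable (by simp) _
  obtain ⟨hYc, hPc, -, -⟩ := h3 d (Φ 1) (lft κ⁻¹) q Y0 P0 hΦd hld
  have hfun : (fun q => (lft κ⁻¹ (Φ 1 q) : P d)) = fch Φ κ 1 := rfl
  rw [hfun] at hYc hPc
  rw [← hYc] at hdet2
  rw [← hYc, ← hPc] at hPk
  rw [← hYc, ← hPc] at hL2
  have hdY : (Yf (fch Φ κ 1) q Y0 P0).det ≠ 0 := by
    have h12 : 1 ≤ CB * R ^ e' := by
      have h13 : 1 ≤ R ^ e' := Real.one_le_rpow hR1 he'p.le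
      nlinarith
    exact (hY _ _ _ h12 hL2).1
  set D : ℝ := (fderiv ℝ (fun y : V d => κ⁻¹ • y) (Φ 1 q).1).det with hD
  have hD0 : D ≠ 0 := by
    intro h0
    apply hdY
    rw [hdet2, h0]
    simp
  set s : ℝ := (Real.sqrt |D|)⁻¹ with hs
  have hs2 : s ^ 2 * |D| = 1 := by
    rw [hs, inv_pow, Real.sq_sqrt (abs_nonneg _), inv_mul_cancel₀ (abs_pos.2 hD0).ne']
  set a0 : ℂ := amp Φ q Y0 P0 1 * Complex.exp (((R * ((Ham G q + 1 / 2) * 1) : ℝ) : ℂ) * Complex.I) with ha0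
  have ha0n : ‖a0‖ = ‖amp Φ q Y0 P0 1‖ := by
    rw [ha0, norm_mul, Complex.norm_exp_ofReal_mul_I, mul_one]
  refine ⟨a0 * (s : ℂ), ?_, ?_⟩
  · rw [norm_mul, mul_pow, ha0n, Complex.norm_real, Real.norm_eq_abs, sq_abs, hdet2, norm_mul, Complex.norm_real, Real.norm_eq_abs, ← hamp, norm_mul, norm_pow]
    calc _ = ‖amp Φ q Y0 P0 1‖ ^ 2 * (s ^ 2 * |D|) * ‖(Yf (Φ 1) q Y0 P0).det‖ := by ring
      _ = _ := by rw [hs2, mul_one]
  · have hF : (fun z => bt G Φ ch ζ2 R Y0 P0 q 1 (g⁻¹ • z) - a0 * (s : ℂ) * bm G ch ζ2 R (Pf (fch Φ κ 1) q Y0 P0 * (Yf (fch Φ κ 1) q Y0 P0)⁻¹) (fch Φ κ 1 q) ((g * κ)⁻¹ • z)) =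
        fun z => a0 * ((fun w => bm G ch ζ2 R (Pf (Φ 1) q Y0 P0 * (Yf (Φ 1) q Y0 P0)⁻¹) (Φ 1 q) ((κ⁻¹)⁻¹ • w) -
          ((s : ℝ) : ℂ) * bm G ch ζ2 R (Pf (fch Φ κ 1) q Y0 P0 * (Yf (fch Φ κ 1) q Y0 P0)⁻¹) (lft κ⁻¹ (Φ 1 q)) w) ((g * κ)⁻¹ • z)) := by
      funext z
      have h14 : (κ⁻¹)⁻¹ • (g * κ)⁻¹ • z = g⁻¹ • z := by
        rw [smul_smul]
        congr 1
        group
      show bt G Φ ch ζ2 R Y0 P0 q 1 (g⁻¹ • z) - _ = a0 * (bm G ch ζ2 R (Pf (Φ 1) q Y0 P0 * (Yf (Φ 1) q Y0 P0)⁻¹) (Φ 1 q) ((κ⁻¹)⁻¹ • (g * κ)⁻¹ • z) - _)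
      rw [h14]
      unfold bt Mt
      rw [← ha0]
      have h15 : (fch Φ κ 1 q) = lft κ⁻¹ (Φ 1 q) := rfl
      rw [h15]
      ring
    rw [hF, ALCC_nnc]
    have hη : CB * ζ2 ≤ 1 / 4 := by
      have := ez (4 * CB) (by rw [hCdef]; linarith)
      linarith
    have hPn := (hP G hK hcls 0 (CB * ζ2) (R ^ (-(1 / 2) + CB * ζ2)) R (lft κ⁻¹ (Φ 1 q)) _ (g * κ) hq' hR1 (by positivity) hη (by positivity) hPk).2.2.2
    have hampU : ‖a0‖ ^ 2 ≤ CA ^ 2 * R ^ (2 * ζ2) := by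
      rw [ha0n]
      have h16 : ‖amp Φ q Y0 P0 1‖ ≤ CA * R ^ ζ2 := by
        refine hampn.trans (mul_le_mul_of_nonneg_left ?_ (by linarith))
        rw [← Real.rpow_mul hRp.le]
        refine Real.rpow_le_rpow_of_exponent_le hR1 ?_
        have := ee CA (by rw [hCdef]; linarith)
        linarith
      calc ‖amp Φ q Y0 P0 1‖ ^ 2 ≤ (CA * R ^ ζ2) ^ 2 := pow_le_pow_left₀ (norm_nonneg _) h16 2
        _ = CA ^ 2 * R ^ (2 * ζ2) := by
          rw [mul_pow, ← Real.rpow_natCast (R ^ ζ2), ← Real.rpow_mul hRp.le]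
          congr 2
          push_cast
          ring
    calc _ ≤ (CA ^ 2 * R ^ (2 * ζ2)) * (CP * ((R ^ (-(1 / 2) + CB * ζ2)) ^ 2 * R ^ (-((d : ℝ) / 2) + d * (CB * ζ2)))) :=
          mul_le_mul hampU hPn (by unfold nn; positivity) (by positivity)
      _ = (CA ^ 2 * CP) * R ^ (-((d : ℝ) / 2) - 1 + (2 + 2 * CB + d * CB) * ζ2) := by
        have h17 : R ^ (-((d : ℝ) / 2) - 1 + (2 + 2 * CB + d * CB) * ζ2) = R ^ (2 * ζ2) * ((R ^ (-(1 / 2) + CB * ζ2)) ^ 2 * R ^ (-((d : ℝ) / 2) + d * (CB * ζ2))) := by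
          rw [← Real.rpow_natCast (R ^ (-(1 / 2) + CB * ζ2)), ← Real.rpow_mul hRp.le, ← Real.rpow_add hRp, ← Real.rpow_add hRp]
          congr 1
          push_cast
          ring
        rw [h17]
        ring
      _ ≤ R ^ ζ2 * R ^ (-((d : ℝ) / 2) - 1 + (2 + 2 * CB + d * CB) * ζ2) := mul_le_mul_of_nonneg_right t2 (by positivity)
      _ = R ^ (-((d : ℝ) / 2) - 1 + (3 + 2 * CB + d * CB) * ζ2) := by rw [← Real.rpow_add hRp]; congr 1; ring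
      _ ≤ R ^ (-((d : ℝ) / 2) - 1 + C * ζ2) := by
        refine Real.rpow_le_rpow_of_exponent_le hR1 ?_
        have : (3 + 2 * CB + d * CB) * ζ2 ≤ C * ζ2 := mul_le_mul_of_nonneg_right (by rw [hCdef]; linarith) hζ.le
        linarith

end Pool.Agent.VD
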