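import Pool.Agent.helper84.VD.SpecB5

/-!
# Project VD (MP_07c750_an), row DOBR: compression of the chains of big steps to discs
-/

set_option autoImplicit false

open scoped ContDiff Topology InnerProductSpace ENNReal
open MeasureTheory Filter Set

namespace Pool.Agent.VD

open Pool.Agent.VQ (CH qZ)
open Pool.Agent.VDE (dir)

noncomputable section

/-- the choice of `R` -/
theorem DOBR_R (m b : ℕ) (CD CW CV e1 z : ℝ) (hCD : 1 ≤ CD) (hCW : 1 ≤ CW) (he1 : 0 < e1) (hz : 0 < z)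
    (hz1 : 12 * (CW + 2 * ((m : ℝ) + 1) * CD + 1) * z ≤ 1) (hCV : 1 ≤ CV) :
    ∃ R0 : ℝ, 1 ≤ R0 ∧ ∀ R : ℝ, R0 ≤ R →
      R ^ (-(1 / 2) + CD * z) ≤ e1 ∧ R ^ (-(1 / 2) + CW * z) ≤ e1 ∧ 7 * R ^ (-(1 / 2) + CD * z) ≤ R ^ (-(1 / 3) : ℝ) ∧
      CV * (5 * R ^ (-(1 / 2) + CD * z)) ≤ 1 ∧ 3 / 2 * R ^ (-(1 / 4) : ℝ) ≤ 1 / 8 ∧
      R ^ (2 * ((m : ℝ) + 1) * b + (m : ℝ) / 2 + CW * b * z) * (CV * (5 * R ^ (-(1 / 2) + CD * z)) ^ (2 * (m + 1))) ^ b ≤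
        R ^ (((m : ℝ) + 1) * b + (m : ℝ) / 2 + 12 * (CW + 2 * ((m : ℝ) + 1) * CD + 1) * b * z) := by
  have hm0 : (0 : ℝ) ≤ m := Nat.cast_nonneg m
  have hCDz : 12 * CD * z ≤ 1 := by
    refine le_trans ?_ hz1
    refine mul_le_mul_of_nonneg_right ?_ hz.le
    have : 0 ≤ (m : ℝ) * CD := mul_nonneg hm0 (by linarith)
    nlinarith
  have hCWz : 12 * CW * z ≤ 1 := by
    refine le_trans ?_ hz1
    refine mul_le_mul_of_nonneg_right ?_ hz.le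
    have : 0 ≤ (m : ℝ) * CD := mul_nonneg hm0 (by linarith)
    nlinarith
  have h1 : ∀ᶠ R : ℝ in atTop, CV * 5 ^ (2 * (m + 1)) ≤ R ^ z := (tendsto_rpow_atTop hz).eventually_ge_atTop _
  have h2 : ∀ᶠ R : ℝ in atTop, R ^ (-(5 / 12) : ℝ) < e1 := (tendsto_rpow_neg_atTop (by norm_num : (0 : ℝ) < 5 / 12)).eventually_lt_const he1
  have h3 : ∀ᶠ R : ℝ in atTop, 7 ≤ R ^ (1 / 12 : ℝ) := (tendsto_rpow_atTop (by norm_num)).eventually_ge_atTop _
  have h4 : ∀ᶠ R : ℝ in atTop, R ^ (-(5 / 12) : ℝ) < 1 / (5 * CV) := (tendsto_rpow_neg_atTop (by norm_num : (0 : ℝ) < 5 / 12)).eventually_lt_const (by positivity)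
  have h5 : ∀ᶠ R : ℝ in atTop, R ^ (-(1 / 4) : ℝ) < 1 / 12 := (tendsto_rpow_neg_atTop (by norm_num : (0 : ℝ) < 1 / 4)).eventually_lt_const (by norm_num)
  obtain ⟨R1, hR1⟩ := eventually_atTop.1 (h1.and (h2.and (h3.and (h4.and h5))))
  refine ⟨max R1 1, le_max_right _ _, fun R hR => ?_⟩
  obtain ⟨k1, k2, k3, k4, k5⟩ := hR1 R ((le_max_left _ _).trans hR)
  have hR1' : 1 ≤ R := (le_max_right _ _).trans hR
  have hR0 : 0 < R := by linarith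
  have hpow : ∀ a a' : ℝ, a ≤ a' → R ^ a ≤ R ^ a' := fun a a' h => Real.rpow_le_rpow_of_exponent_le hR1' h
  have hs : R ^ (-(1 / 2) + CD * z) ≤ R ^ (-(5 / 12) : ℝ) := hpow _ _ (by linarith)
  have hs2 : R ^ (-(1 / 2) + CW * z) ≤ R ^ (-(5 / 12) : ℝ) := hpow _ _ (by linarith)
  refine ⟨hs.trans k2.le, hs2.trans k2.le, ?_, ?_, by linarith, ?_⟩
  · have e1 : R ^ (1 / 12 : ℝ) * R ^ (-(5 / 12) : ℝ) = R ^ (-(1 / 3) : ℝ) := by
      rw [← Real.rpow_add hR0]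
      norm_num
    rw [← e1]
    exact mul_le_mul k3 hs (Real.rpow_nonneg hR0.le _) (Real.rpow_nonneg hR0.le _)
  · have e1 : R ^ (-(1 / 2) + CD * z) ≤ 1 / (5 * CV) := hs.trans k4.le
    rw [le_div_iff₀ (by positivity)] at e1
    linarith
  · have e1 : (CV * (5 * R ^ (-(1 / 2) + CD * z)) ^ (2 * (m + 1))) ^ b = (CV * 5 ^ (2 * (m + 1))) ^ b * R ^ ((-(1 / 2) + CD * z) * (2 * ((m : ℝ) + 1) * b)) := by
      rw [mul_pow 5, ← mul_assoc, mul_pow, ← pow_mul, ← Real.rpow_natCast (R ^ (-(1 / 2) + CD * z)), ← Real.rpow_mul hR0.le]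
      push_cast
      rfl
    have e2 : (CV * 5 ^ (2 * (m + 1))) ^ b ≤ R ^ (z * b) := by
      rw [Real.rpow_mul hR0.le, Real.rpow_natCast]
      exact pow_le_pow_left₀ (by positivity) k1 b
    rw [e1]
    calc R ^ (2 * ((m : ℝ) + 1) * b + (m : ℝ) / 2 + CW * b * z) * ((CV * 5 ^ (2 * (m + 1))) ^ b * R ^ ((-(1 / 2) + CD * z) * (2 * ((m : ℝ) + 1) * b)))
        ≤ R ^ (2 * ((m : ℝ) + 1) * b + (m : ℝ) / 2 + CW * b * z) * (R ^ (z * b) * R ^ ((-(1 / 2) + CD * z) * (2 * ((m : ℝ) + 1) * b))) := by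
          refine mul_le_mul_of_nonneg_left ?_ (Real.rpow_nonneg hR0.le _)
          exact mul_le_mul_of_nonneg_right e2 (Real.rpow_nonneg hR0.le _)
      _ = R ^ (((m : ℝ) + 1) * b + (m : ℝ) / 2 + (CW + 2 * ((m : ℝ) + 1) * CD + 1) * b * z) := by
          rw [← Real.rpow_add hR0, ← Real.rpow_add hR0]
          congr 1
          ring
      _ ≤ _ := by
          refine hpow _ _ ?_
          have e3 : 0 ≤ (CW + 2 * ((m : ℝ) + 1) * CD + 1) * b * z := by positivity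
          nlinarith

/-- the sum over the centers -/
theorem DOBR_sum {X ι : Type} [MeasurableSpace X] (μ : Measure X) (E : Finset ι) (S : ι → Set X) (T : Set X) (f : X → ENNReal) (v : ι → ENNReal)
    (hS : ∀ i ∈ E, MeasurableSet (S i)) (hd : ∀ i ∈ E, ∀ j ∈ E, i ≠ j → Disjoint (S i) (S j)) (hT : ∀ i ∈ E, S i ⊆ T) (hv : ∀ i ∈ E, ∀ x ∈ S i, v i ≤ f x) :
    ∑ i ∈ E, μ (S i) * v i ≤ ∫⁻ x in T, f x ∂μ := by
  have h1 : ∀ i ∈ E, μ (S i) * v i ≤ ∫⁻ x in S i, f x ∂μ := by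
    intro i hi
    calc μ (S i) * v i = ∫⁻ _ in S i, v i ∂μ := by rw [setLIntegral_const, mul_comm]
      _ ≤ ∫⁻ x in S i, f x ∂μ := setLIntegral_mono' (hS i hi) (fun x hx => hv i hi x hx)
  calc ∑ i ∈ E, μ (S i) * v i ≤ ∑ i ∈ E, ∫⁻ x in S i, f x ∂μ := Finset.sum_le_sum h1
    _ = ∫⁻ x in ⋃ i ∈ E, S i, f x ∂μ := by
        rw [lintegral_biUnion_finset]
        · intro i hi j hj hij
          exact hd i hi j hj hij
        · exact hS
    _ ≤ ∫⁻ x in T, f x ∂μ := lintegral_mono_set (iUnion₂_subset hT)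

/-- the neighbourhoods of the vertices are measurable -/
theorem DOBR_meas (m : ℕ) (Γ : Type) [Group Γ] [MulAction Γ (V (m + 1))] [Countable Γ] (D : P (m + 1) → P (m + 1) → ℝ) (hD : Continuous (Function.uncurry D)) (hl : ∀ γ : Γ, Continuous (lft γ : P (m + 1) → P (m + 1)))
    (g : Γ) (q : P (m + 1)) (r : ℝ) : MeasurableSet {y' : YS Γ (m + 1) | D q (lft (g⁻¹ * y'.1) y'.2) ≤ r} := by
  have h : {y' : YS Γ (m + 1) | D q (lft (g⁻¹ * y'.1) y'.2) ≤ r} = ⋃ γ : Γ, ({y' : YS Γ (m + 1) | y'.1 = γ ∧ D q (lft (g⁻¹ * γ) y'.2) ≤ r} : Set (YS Γ (m + 1))) := by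
    ext y'
    rw [mem_iUnion]
    constructor
    · intro h
      exact ⟨y'.1, rfl, h⟩
    · rintro ⟨γ, h1, h2⟩
      have h1' : y'.1 = γ := h1
      show D q (lft (g⁻¹ * y'.1) y'.2) ≤ r
      rw [h1']
      exact h2
  rw [h]
  refine MeasurableSet.iUnion fun γ => ?_
  refine @MeasurableSet.prod Γ (P (m + 1)) ⊤ inferInstance ({γ} : Set Γ) {p : P (m + 1) | D q (lft (g⁻¹ * γ) p) ≤ r} trivial ?_
  have hc : Continuous fun p : P (m + 1) => D q (lft (g⁻¹ * γ) p) := hD.comp (continuous_const.prodMk (hl _))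
  exact (isClosed_le hc continuous_const).measurableSet

/-- the distance of two orbits up to the time `N l` -/
def DOBR_del {m : ℕ} (D : P (m + 1) → P (m + 1) → ℝ) (Φ : ℝ → P (m + 1) → P (m + 1)) (κ : P (m + 1) → Z m → P (m + 1)) (z : P (m + 1)) (l : ℝ) (N : ℕ) (v w : W m) : ℝ :=
  (Finset.range (N + 1)).sup' (Finset.nonempty_range_add_one) (fun i => D (Φ (i * l) (κ z (0, v))) (Φ (i * l) (κ z (0, w))))

theorem DOBR_del_le {m : ℕ} (D : P (m + 1) → P (m + 1) → ℝ) (Φ : ℝ → P (m + 1) → P (m + 1)) (κ : P (m + 1) → Z m → P (m + 1)) (z : P (m + 1)) (l : ℝ) (N : ℕ) (v w : W m) (r : ℝ) :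
    DOBR_del D Φ κ z l N v w ≤ r ↔ ∀ i ≤ N, D (Φ (i * l) (κ z (0, v))) (Φ (i * l) (κ z (0, w))) ≤ r := by
  unfold DOBR_del
  rw [Finset.sup'_le_iff]
  simp only [Finset.mem_range, Nat.lt_succ_iff]

/-- the Bowen discs are closed -/
theorem DOBR_closed {m : ℕ} (D : P (m + 1) → P (m + 1) → ℝ) (Φ : ℝ → P (m + 1) → P (m + 1)) (κ : P (m + 1) → Z m → P (m + 1)) (z : P (m + 1)) (l : ℝ) (N : ℕ) (ρ s : ℝ) (v : W m)
    (L : ℝ) (hdt : ∀ p q r : P (m + 1), D p r ≤ D p q + D q r) (hL : ∀ u w : W m, ‖u‖ ≤ ρ → ‖w‖ ≤ ρ → DOBR_del D Φ κ z l N u w ≤ L * ‖u - w‖) :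
    IsClosed (BD D Φ κ z l N ρ s v) := by
  have h : BD D Φ κ z l N ρ s v = ⋂ i : Fin (N + 1), (Metric.closedBall (0 : W m) ρ ∩ (fun w => D (Φ ((i : ℕ) * l) (κ z (0, v))) (Φ ((i : ℕ) * l) (κ z (0, w)))) ⁻¹' Iic s) := by
    ext w
    simp only [BD, mem_setOf_eq, mem_iInter, mem_inter_iff, mem_preimage, mem_Iic, mem_closedBall_zero_iff]
    constructor
    · intro h i
      exact ⟨h.1, h.2 i (Nat.lt_succ_iff.1 i.2)⟩
    · intro h
      exact ⟨(h 0).1, fun i hi => (h ⟨i, Nat.lt_succ_iff.2 hi⟩).2⟩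
  rw [h]
  refine isClosed_iInter fun i => ?_
  refine ContinuousOn.preimage_isClosed_of_isClosed ?_ Metric.isClosed_closedBall isClosed_Iic
  have hL0 : ∀ u w : W m, ‖u‖ ≤ ρ → ‖w‖ ≤ ρ → D (Φ ((i : ℕ) * l) (κ z (0, u))) (Φ ((i : ℕ) * l) (κ z (0, w))) ≤ L * ‖u - w‖ := fun u w hu hw =>
    (DOBR_del_le D Φ κ z l N u w _).1 (hL u w hu hw) i (Nat.lt_succ_iff.1 i.2)
  have hlip : ∀ u w : W m, ‖u‖ ≤ ρ → ‖w‖ ≤ ρ → D (Φ ((i : ℕ) * l) (κ z (0, v))) (Φ ((i : ℕ) * l) (κ z (0, u))) - D (Φ ((i : ℕ) * l) (κ z (0, v))) (Φ ((i : ℕ) * l) (κ z (0, w))) ≤ |L| * ‖u - w‖ := by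
    intro u w hu hw
    have h1 := hdt (Φ ((i : ℕ) * l) (κ z (0, v))) (Φ ((i : ℕ) * l) (κ z (0, w))) (Φ ((i : ℕ) * l) (κ z (0, u)))
    have h2 := hL0 w u hw hu
    have h3 : L * ‖w - u‖ ≤ |L| * ‖u - w‖ := by
      rw [norm_sub_rev]
      exact mul_le_mul_of_nonneg_right (le_abs_self _) (norm_nonneg _)
    linarith
  refine LipschitzOnWith.continuousOn (K := ⟨|L|, abs_nonneg _⟩) (LipschitzOnWith.of_dist_le_mul fun u hu w hw => ?_)
  rw [mem_closedBall_zero_iff] at hu hw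
  rw [Real.dist_eq, dist_eq_norm]
  have h1 := hlip u w hu hw
  have h2 := hlip w u hw hu
  rw [norm_sub_rev] at h2
  exact abs_sub_le_iff.2 ⟨h1, h2⟩

/-- the Bowen discs are disjoint -/
theorem DOBR_disj {m : ℕ} (D : P (m + 1) → P (m + 1) → ℝ) (Φ : ℝ → P (m + 1) → P (m + 1)) (κ : P (m + 1) → Z m → P (m + 1)) (z : P (m + 1)) (l : ℝ) (N : ℕ) (ρ s : ℝ) (v v' : W m)
    (hs : ∀ p q : P (m + 1), D p q = D q p) (hdt : ∀ p q r : P (m + 1), D p r ≤ D p q + D q r) (h : 2 * s < DOBR_del D Φ κ z l N v v') :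
    Disjoint (BD D Φ κ z l N ρ s v) (BD D Φ κ z l N ρ s v') := by
  rw [Set.disjoint_left]
  intro w hw hw'
  refine absurd h (not_lt.2 ?_)
  rw [DOBR_del_le]
  intro i hi
  have h1 := hw.2 i hi
  have h2 := hw'.2 i hi
  have h3 := hdt (Φ (i * l) (κ z (0, v))) (Φ (i * l) (κ z (0, w))) (Φ (i * l) (κ z (0, v')))
  rw [hs (Φ (i * l) (κ z (0, w))) (Φ (i * l) (κ z (0, v')))] at h3
  linarith

theorem DOBR_proof (hDCN : DCN_stmt) (hDWT : DWT_stmt) (hQZC : QZC_stmt) (hSPT : SPT_stmt) (hUBR : UBR_stmt) (hVBY : VBY_stmt) (hEFX : EFX_stmt) (hDPP : DPP_stmt) (hGLF : GLF_stmt) (hGHL : GHL_stmt) (hGXH : GXH_stmt) (hDFD : DFD_stmt) : DOBR_stmt := by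
  intro m Γ _ _ K r0 χ ch η k B c C' e0 e1 hm hK hPU hCH hη hc hC' he0 he1
  obtain ⟨CD, hCD, hD⟩ := hDCN m Γ K r0 η k B c C' e0 e1 hK hPU.one hη hc hC' he0 he1
  obtain ⟨CW, hCW, hW⟩ := hDWT m Γ K r0 χ ch η k B c C' e0 e1 CD hK hPU hCH hη hc hC' he0 he1 hCD
  obtain ⟨CV, RV, hCV, hRV, hV⟩ := hVBY (m + 1) Γ K k B η r0 hK hη
  obtain ⟨C0, hC0, hE⟩ := hEFX (m + 1) Γ K k B η hK hη
  obtain ⟨-, hD0, hDz, hDs, hDt, hDi, hDc, -⟩ := hDPP (m + 1) Γ K η hK hη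
  obtain ⟨l1, lm, lsm, -, -, -, -, -⟩ := hGLF (m + 1) Γ hK.smooth
  obtain ⟨hcnt, -⟩ := hDFD (m + 1) Γ K hK
  obtain ⟨CC, hCC⟩ : ∃ CC, CC = 12 * (CW + 2 * ((m : ℝ) + 1) * CD + 1) := ⟨_, rfl⟩
  have hm0 : (0 : ℝ) ≤ m := Nat.cast_nonneg m
  have hmC : 0 ≤ (m : ℝ) * CD := mul_nonneg hm0 (by linarith)
  have hCCD : CD ≤ CC := by rw [hCC]; nlinarith
  have hCCW : CW ≤ CC := by rw [hCC]; nlinarith
  refine ⟨CC, hCD.trans hCCD, fun A b hA hb => ?_⟩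
  have hz : 0 < A.z := hA.z
  have hz1 : 0 < A.z1 := by have := hA.z1; nlinarith
  have hz2 : 0 < A.z2 := by have := hA.z2; nlinarith
  have hmono : ∀ C1 : ℝ, C1 ≤ CC → Adm C1 A := fun C1 h1 => ⟨hA.e2, (mul_le_mul_of_nonneg_right h1 hA.e2.le).trans hA.e2', hA.z, (mul_le_mul_of_nonneg_right h1 hz.le).trans hA.z1,
    (mul_le_mul_of_nonneg_right h1 hz1.le).trans hA.z2, (mul_le_mul_of_nonneg_right h1 hz2.le).trans hA.up⟩
  obtain ⟨RD, hRD, hD⟩ := hD A b (hmono CD hCCD) hb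
  obtain ⟨RW, hRW, hW⟩ := hW A b (hmono CW hCCW) hb
  have hup : 12 * (CW + 2 * ((m : ℝ) + 1) * CD + 1) * A.z2 ≤ 1 := by rw [← hCC]; exact hA.up
  obtain ⟨R1, hR1, hRR⟩ := DOBR_R m b CD CW CV e1 A.z2 hCD hCW he1 hz2 hup hCV
  refine ⟨max (max RD RW) (max RV R1), hRD.trans ((le_max_left _ _).trans (le_max_left _ _)), fun R G Φ κ hR hG hΦ hSEC V0 V1 hV0 hV1 hinv hVV y hy => ?_⟩
  have hRD' : RD ≤ R := ((le_max_left _ _).trans (le_max_left _ _)).trans hR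
  have hRW' : RW ≤ R := ((le_max_right _ _).trans (le_max_left _ _)).trans hR
  have hRV' : RV ≤ R := ((le_max_left _ _).trans (le_max_right _ _)).trans hR
  have hR1' : R1 ≤ R := ((le_max_right _ _).trans (le_max_right _ _)).trans hR
  obtain ⟨q1, q2, q3, q4, q5, q6⟩ := hRR R hR1'
  have hR01 : 1 ≤ R := hR1.trans hR1'
  have hR0 : 0 < R := by linarith
  have hEF := hE C0 le_rfl G Φ hG hΦ
  have hnl := (hGHL (m + 1) Γ G hG.met hK.smooth hG.isom).1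
  obtain ⟨-, -, -, hnH, -⟩ := hGXH (m + 1) G hG.met
  -- norms on the windows
  have hnn : ∀ q : P (m + 1), 0 ≤ nrm G q := fun q => Real.sqrt_nonneg _
  have hwin : ∀ (q : P (m + 1)), |Ep G q| ≤ 3 / 2 * R ^ (-(1 / 4) : ℝ) → 3 / 4 ≤ nrm G q ∧ nrm G q ≤ 5 / 4 := by
    intro q hq
    have h1 : nrm G q ^ 2 = 1 + 2 * Ep G q := by rw [hnH q]; unfold Ep; ring
    have h2 := abs_le.1 (hq.trans q5)
    constructor
    · by_contra h3
      push Not at h3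
      nlinarith [hnn q]
    · by_contra h3
      push Not at h3
      nlinarith [hnn q]
  obtain ⟨l, hl⟩ : ∃ l, l = nrm G y.2 := ⟨_, rfl⟩
  have hR14 : 0 ≤ R ^ (-(1 / 4) : ℝ) := Real.rpow_nonneg hR0.le _
  have hlb := hwin y.2 (hy.2.trans (mul_le_mul_of_nonneg_right (by norm_num) hR14))
  rw [← hl] at hlb
  obtain ⟨hl1, hl2⟩ := hlb
  obtain ⟨z, hzd⟩ : ∃ z, z = dir G y.2 := ⟨_, rfl⟩
  have hzn : nrm G z = 1 := by
    have h1 : z = sc l⁻¹ y.2 := by rw [hzd, hl]; rfl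
    rw [h1, hEF.sn, ← hl, abs_of_nonneg (by positivity)]
    exact inv_mul_cancel₀ (by linarith)
  have hzS : z ∈ Shl G := hzn
  have hSEC' : SEC c C' e0 e1 (Shl G) (dP Γ η) Φ κ := hSEC
  obtain ⟨s, hs⟩ : ∃ s, s = R ^ (-(1 / 2) + CD * A.z2) := ⟨_, rfl⟩
  obtain ⟨ρ, hρ⟩ : ∃ ρ, ρ = R ^ (-(1 / 2) + CW * A.z2) := ⟨_, rfl⟩
  have hs0 : 0 < s := by rw [hs]; exact Real.rpow_pos_of_pos hR0 _
  have hρ0 : 0 < ρ := by rw [hρ]; exact Real.rpow_pos_of_pos hR0 _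
  obtain ⟨N, hN⟩ : ∃ N, N = b * (A.n R + 1) := ⟨_, rfl⟩
  have hkn : ∀ v : W m, ‖v‖ ≤ e1 → nrm G (κ z (0, v)) = 1 := fun v hv => by
    have h1 : ‖((0, v) : Z m)‖ ≤ e1 := by
      rw [Prod.norm_def]
      exact max_le (by rw [norm_zero]; exact he1.le) hv
    exact hSEC'.mem z hzS _ h1
  -- the Lipschitz bound
  obtain ⟨L, hL⟩ : ∃ L, L = C0 * Real.exp (C0 * (N * l)) * C' := ⟨_, rfl⟩
  have hL0 : 0 ≤ L := by rw [hL]; positivity
  have hlip : ∀ u w : W m, ‖u‖ ≤ e1 → ‖w‖ ≤ e1 → DOBR_del (dP Γ η) Φ κ z l N u w ≤ L * ‖u - w‖ := by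
    intro u w hu hw
    rw [DOBR_del_le]
    intro i hi
    have h1 := hEF.gr (κ z (0, u)) (κ z (0, w)) (i * l) (by rw [hkn u hu]; norm_num) (by rw [hkn w hw]; norm_num)
    have h2 := hSEC'.cmp z hzS (0, u) (0, w) (by rw [Prod.norm_def]; exact max_le (by rw [norm_zero]; exact he1.le) hu) (by rw [Prod.norm_def]; exact max_le (by rw [norm_zero]; exact he1.le) hw)
    have h3 : ‖((0, u) : Z m) - (0, w)‖ = ‖u - w‖ := by
      rw [Prod.mk_sub_mk, sub_zero, Prod.norm_def]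
      show max ‖(0 : W m)‖ ‖u - w‖ = ‖u - w‖
      rw [norm_zero]
      exact max_eq_right (norm_nonneg _)
    rw [h3] at h2
    have h4 : |(i : ℝ) * l| ≤ N * l := by
      rw [abs_of_nonneg (by positivity)]
      exact mul_le_mul_of_nonneg_right (by exact_mod_cast hi) (by linarith)
    have h5 : C0 * Real.exp (C0 * |(i : ℝ) * l|) ≤ C0 * Real.exp (C0 * (N * l)) := by
      refine mul_le_mul_of_nonneg_left (Real.exp_le_exp.2 ?_) (by linarith)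
      exact mul_le_mul_of_nonneg_left h4 (by linarith)
    calc dP Γ η (Φ (i * l) (κ z (0, u))) (Φ (i * l) (κ z (0, w))) ≤ C0 * Real.exp (C0 * |(i : ℝ) * l|) * dP Γ η (κ z (0, u)) (κ z (0, w)) := h1
      _ ≤ C0 * Real.exp (C0 * (N * l)) * (C' * ‖u - w‖) := mul_le_mul h5 h2 (hD0 _ _) (by positivity)
      _ = L * ‖u - w‖ := by rw [hL]; ring
  have hse : s ≤ e1 := by rw [hs]; exact q1
  have hρe : ρ ≤ e1 := by rw [hρ]; exact q2
  -- the centers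
  obtain ⟨E, hE1, hE2, hE3⟩ := hSPT m s (2 * s) L (DOBR_del (dP Γ η) Φ κ z l N) (by linarith) hL0
    (fun v w => by
      unfold DOBR_del
      refine Finset.sup'_congr _ rfl fun i _ => hDs _ _)
    (fun v => by
      refine le_antisymm ?_ ?_
      · rw [DOBR_del_le]
        intro i _
        rw [hDz]
      · unfold DOBR_del
        refine le_trans (hD0 _ _) (Finset.le_sup' (fun i : ℕ => dP Γ η (Φ (i * l) (κ z (0, v))) (Φ (i * l) (κ z (0, v)))) (Finset.mem_range.2 (Nat.succ_pos N))))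
    (fun v w hv hw => hlip v w (hv.trans hse) (hw.trans hse))
  -- the vertices of the central orbits
  obtain ⟨T, hT⟩ : ∃ T : W m → ℕ → P (m + 1), T = fun (v : W m) (j : ℕ) => sc l (Φ (j * A.tu R * l) (κ z (0, v))) := ⟨_, rfl⟩
  have hTj : ∀ v j, T v j = sc l (Φ (j * A.tu R * l) (κ z (0, v))) := fun v j => by rw [hT]
  obtain ⟨Nb, hNb⟩ : ∃ Nb : W m → ℕ → Set (YS Γ (m + 1)), Nb = fun v j => {y' | dP Γ η (T v j) (lft (y.1⁻¹ * y'.1) y'.2) ≤ 5 * s} := ⟨_, rfl⟩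
  have hNbj : ∀ v j, Nb v j = {y' | dP Γ η (T v j) (lft (y.1⁻¹ * y'.1) y'.2) ≤ 5 * s} := fun v j => by rw [hNb]
  have hNm : ∀ v j, MeasurableSet (Nb v j) := fun v j => by
    rw [hNbj]
    exact DOBR_meas m Γ (dP Γ η) hDc (fun γ => (lsm γ).continuous) y.1 (T v j) (5 * s)
  have hNv : ∀ v j, mW Γ G r0 R (Nb v j) ≤ ENNReal.ofReal (CV * (5 * s) ^ (2 * (m + 1))) := fun v j => by
    have h1 := hV G R (5 * s) ((y.1, T v j) : Γ × P (m + 1)) hG hRV' (by linarith) (by rw [hs]; exact q4)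
    refine le_trans (measure_mono ?_) h1
    intro y' hy'
    rw [hNbj] at hy'
    have h2 : dP Γ η (T v j) (lft (y.1⁻¹ * y'.1) y'.2) ≤ 5 * s := hy'
    show dP Γ η (lft y.1 (T v j)) (lft y'.1 y'.2) ≤ 5 * s
    have h3 : lft y'.1 y'.2 = lft y.1 (lft (y.1⁻¹ * y'.1) y'.2) := by
      rw [← lm]
      congr 1
      group
    rw [h3, hDi]
    exact h2
  have hTT : ∀ v v' : W m, ∀ r : ℝ, (∀ i ≤ N, dP Γ η (Φ (i * l) (κ z (0, v))) (Φ (i * l) (κ z (0, v'))) ≤ r) → ∀ j ≤ b, dP Γ η (T v j) (T v' j) ≤ 2 * r := by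
    intro v v' r h j hj
    have h1 : (j : ℝ) * A.tu R * l = ((j * (A.n R + 1) : ℕ) : ℝ) * l := by
      unfold Par.tu
      push_cast
      ring
    rw [hTj, hTj, h1]
    have h2 := h (j * (A.n R + 1)) (by rw [hN]; exact Nat.mul_le_mul_right _ hj)
    have h3 := hEF.s2 (Φ (((j * (A.n R + 1) : ℕ) : ℝ) * l) (κ z (0, v))) (Φ (((j * (A.n R + 1) : ℕ) : ℝ) * l) (κ z (0, v'))) l (by linarith) (by linarith)
    linarith
  -- the function on the disc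
  obtain ⟨f, hf⟩ : ∃ f : W m → ENNReal, f = fun v => V1 (T v b) := ⟨_, rfl⟩
  have hfv : ∀ v, f v = V1 (T v b) := fun v => by rw [hf]
  obtain ⟨Bv, hBv⟩ : ∃ Bv : W m → Set (W m), Bv = fun v => BD (dP Γ η) Φ κ z l N ρ s v := ⟨_, rfl⟩
  have hBvv : ∀ v, Bv v = BD (dP Γ η) Φ κ z l N ρ s v := fun v => by rw [hBv]
  obtain ⟨Vv, hVv⟩ : ∃ Vv : W m → ENNReal, Vv = fun v => ⨅ v' ∈ Bv v, f v' := ⟨_, rfl⟩
  have hVvv : ∀ v, Vv v = ⨅ v' ∈ Bv v, f v' := fun v => by rw [hVv]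
  obtain ⟨a, ha⟩ : ∃ a, a = R ^ (2 * ((m : ℝ) + 1) * b + (m : ℝ) / 2 + CW * b * A.z2) := ⟨_, rfl⟩
  have ha0 : 0 ≤ a := by rw [ha]; exact Real.rpow_nonneg hR0.le _
  -- the chain inequality
  have hchain : ∀ w : ℕ → YS Γ (m + 1), w 0 = y → 1 * ((∏ j ∈ Finset.range b, ‖ub G Φ r0 χ ch A R (w j) (w (j + 1))‖ₑ ^ 2) * V0 (w b).2) ≤
      ∑ v ∈ E, (ENNReal.ofReal a * (volume (Bv v) * Vv v)) * ∏ j ∈ Finset.range b, (Nb v (j + 1)).indicator (fun _ => (1 : ENNReal)) (w (j + 1)) := by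
    intro w hw0
    rw [one_mul]
    by_cases hP : ∏ j ∈ Finset.range b, ‖ub G Φ r0 χ ch A R (w j) (w (j + 1))‖ₑ ^ 2 = 0
    · rw [hP, zero_mul]
      exact zero_le
    have hch : ChD G Φ r0 A R b w := by
      intro j hj
      refine hUBR (m + 1) Γ G Φ r0 χ ch A R (w j) (w (j + 1)) fun h0 => hP ?_
      refine Finset.prod_eq_zero (Finset.mem_range.2 hj) ?_
      rw [h0, enorm_zero]
      exact zero_pow two_ne_zero
    have hw0' : w 0 ∈ GW Γ G r0 (5 / 4) R := by rw [hw0]; exact hy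
    obtain ⟨vc, hvc, hvj⟩ := hD R G Φ κ hRD' hG hΦ hSEC' w hw0' hch
    rw [hw0, ← hl, ← hzd, ← hs] at hvj
    rw [← hs] at hvc
    obtain ⟨v, hvE, hvd⟩ := hE3 vc hvc
    rw [DOBR_del_le] at hvd
    have h5 : ∀ j ≤ b, dP Γ η (T v j) (lft (y.1⁻¹ * (w j).1) (w j).2) ≤ 5 * s := by
      intro j hj
      have h1 := hTT v vc (2 * s) hvd j hj
      have h2 := (hvj j hj).2
      rw [← hTj vc j] at h2
      have h3 := hDt (T v j) (T vc j) (lft (y.1⁻¹ * (w j).1) (w j).2)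
      linarith
    have hw1 : ∏ j ∈ Finset.range b, ‖ub G Φ r0 χ ch A R (w j) (w (j + 1))‖ₑ ^ 2 ≤ ENNReal.ofReal a * volume (Bv v) := by
      have h1 := hW R G Φ κ hRW' hG hΦ hSEC' w v hw0' (by rw [← hs]; exact hE1 v hvE) (by
        intro j hj
        refine ⟨(hvj j hj).1, ?_⟩
        rw [hw0, ← hl, ← hzd, ← hs, ← hTj v j]
        exact h5 j hj)
      rw [hw0, ← hl, ← hzd, ← hs, ← hρ, ← ha, ← hN, ← hBvv] at h1
      exact h1
    have hw2 : V0 (w b).2 ≤ Vv v := by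
      rw [hVvv]
      refine le_iInf₂ fun v' hv' => ?_
      rw [hBvv] at hv'
      obtain ⟨hv'1, hv'2⟩ := hv'
      have h1 := hTT v v' s hv'2 b le_rfl
      have h2 := h5 b le_rfl
      have h3 : dP Γ η (w b).2 (lft (y.1⁻¹ * (w b).1)⁻¹ (T v' b)) ≤ R ^ (-(1 / 3) : ℝ) := by
        have h4 : dP Γ η (w b).2 (lft (y.1⁻¹ * (w b).1)⁻¹ (T v' b)) = dP Γ η (lft (y.1⁻¹ * (w b).1) (w b).2) (T v' b) := by
          rw [← hDi (y.1⁻¹ * (w b).1) (w b).2 (lft (y.1⁻¹ * (w b).1)⁻¹ (T v' b)), ← lm, mul_inv_cancel, l1]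
        have h6 := hDt (lft (y.1⁻¹ * (w b).1) (w b).2) (T v b) (T v' b)
        rw [hDs (lft (y.1⁻¹ * (w b).1) (w b).2) (T v b)] at h6
        have h7 : 7 * s ≤ R ^ (-(1 / 3) : ℝ) := by rw [hs]; exact q3
        rw [h4]
        linarith
      have hn1 := hwin (w b).2 (hvj b le_rfl).1.2
      have hn2 : nrm G (lft (y.1⁻¹ * (w b).1)⁻¹ (T v' b)) = l := by
        rw [(hnl _ _).2.1, hTj, hEF.sn, hEF.fn, hkn v' (hv'1.trans hρe), mul_one, abs_of_nonneg (by linarith)]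
      have h8 := hVV (w b).2 (lft (y.1⁻¹ * (w b).1)⁻¹ (T v' b)) (by linarith [hn1.1]) (by linarith [hn1.2]) (by rw [hn2]; linarith) (by rw [hn2]; linarith) h3
      rw [hinv] at h8
      rw [hfv]
      exact h8
    have hw3 : ∏ j ∈ Finset.range b, (Nb v (j + 1)).indicator (fun _ => (1 : ENNReal)) (w (j + 1)) = 1 := by
      refine Finset.prod_eq_one fun j hj => ?_
      rw [Set.indicator_of_mem]
      rw [hNbj]
      exact h5 (j + 1) (Finset.mem_range.1 hj)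
    calc (∏ j ∈ Finset.range b, ‖ub G Φ r0 χ ch A R (w j) (w (j + 1))‖ₑ ^ 2) * V0 (w b).2 ≤ (ENNReal.ofReal a * volume (Bv v)) * Vv v := mul_le_mul' hw1 hw2
      _ = (ENNReal.ofReal a * (volume (Bv v) * Vv v)) * ∏ j ∈ Finset.range b, (Nb v (j + 1)).indicator (fun _ => (1 : ENNReal)) (w (j + 1)) := by rw [hw3, mul_one, mul_assoc]
      _ ≤ _ := Finset.single_le_sum (f := fun v => (ENNReal.ofReal a * (volume (Bv v) * Vv v)) * ∏ j ∈ Finset.range b, (Nb v (j + 1)).indicator (fun _ => (1 : ENNReal)) (w (j + 1))) (fun _ _ => zero_le) hvE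
  have hq := hQZC (YS Γ (m + 1)) (W m) (mW Γ G r0 R) (fun x y => ‖ub G Φ r0 χ ch A R x y‖ₑ) (fun y => V0 y.2) E b (fun v => ENNReal.ofReal a * (volume (Bv v) * Vv v)) Nb 1 y hNm hchain
  rw [one_mul] at hq
  refine hq.trans ?_
  -- the sum
  have hprod : ∀ v ∈ E, (ENNReal.ofReal a * (volume (Bv v) * Vv v)) * ∏ j ∈ Finset.range b, mW Γ G r0 R (Nb v (j + 1)) ≤
      ENNReal.ofReal (R ^ (((m : ℝ) + 1) * b + (m : ℝ) / 2 + CC * b * A.z2)) * (volume (Bv v) * Vv v) := by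
    intro v _
    have h1 : ∏ j ∈ Finset.range b, mW Γ G r0 R (Nb v (j + 1)) ≤ ENNReal.ofReal ((CV * (5 * s) ^ (2 * (m + 1))) ^ b) := by
      calc ∏ j ∈ Finset.range b, mW Γ G r0 R (Nb v (j + 1)) ≤ ∏ _j ∈ Finset.range b, ENNReal.ofReal (CV * (5 * s) ^ (2 * (m + 1))) := Finset.prod_le_prod' fun j _ => hNv v (j + 1)
        _ = ENNReal.ofReal ((CV * (5 * s) ^ (2 * (m + 1))) ^ b) := by
          rw [Finset.prod_const, Finset.card_range, ENNReal.ofReal_pow (by positivity)]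
    calc (ENNReal.ofReal a * (volume (Bv v) * Vv v)) * ∏ j ∈ Finset.range b, mW Γ G r0 R (Nb v (j + 1)) ≤ (ENNReal.ofReal a * (volume (Bv v) * Vv v)) * ENNReal.ofReal ((CV * (5 * s) ^ (2 * (m + 1))) ^ b) := mul_le_mul_right h1 _
      _ = ENNReal.ofReal (a * (CV * (5 * s) ^ (2 * (m + 1))) ^ b) * (volume (Bv v) * Vv v) := by
          rw [ENNReal.ofReal_mul ha0, mul_right_comm]
      _ ≤ _ := by
          refine mul_le_mul_left ?_ _
          refine ENNReal.ofReal_le_ofReal ?_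
          rw [ha, hs, hCC]
          exact q6
  refine (Finset.sum_le_sum hprod).trans ?_
  rw [← Finset.mul_sum]
  refine mul_le_mul_right ?_ _
  have hsub : Metric.closedBall (0 : W m) ρ ⊆ Metric.closedBall (0 : W m) (R ^ (-(1 / 2) + CC * A.z2)) := by
    refine Metric.closedBall_subset_closedBall ?_
    rw [hρ]
    refine Real.rpow_le_rpow_of_exponent_le hR01 ?_
    have := mul_le_mul_of_nonneg_right hCCW hz2.le
    linarith
  have hsum := DOBR_sum volume E Bv (Metric.closedBall (0 : W m) (R ^ (-(1 / 2) + CC * A.z2))) f Vv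
    (fun v _ => by
      rw [hBvv]
      exact (DOBR_closed (dP Γ η) Φ κ z l N ρ s v L hDt (fun u w hu hw => hlip u w (hu.trans hρe) (hw.trans hρe))).measurableSet)
    (fun v hv v' hv' hvv => by
      rw [hBvv, hBvv]
      exact DOBR_disj (dP Γ η) Φ κ z l N ρ s v v' hDs hDt (hE2 v hv v' hv' hvv))
    (fun v _ => by
      rw [hBvv]
      intro w hw
      exact hsub (mem_closedBall_zero_iff.2 hw.1))
    (fun v _ w hw => by
      rw [hVvv]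
      exact iInf₂_le w hw)
  refine hsum.trans (le_of_eq ?_)
  refine lintegral_congr fun w => ?_
  rw [hfv, hTj, ← hl, ← hzd]
  show V1 (sc l (Φ (b * A.tu R * l) (κ z (0, w)))) = V1 (sc l (Φ (l * (b * A.tu R)) (κ z (0, w))))
  rw [mul_comm l]

end

end Pool.Agent.VD
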