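import Pool.Agent.helper11.VD.SpecR

set_option autoImplicit false

/-!
# MP_07c750, project VD, block C, row LND: countably many smooth test functions are dense

For `ρ = ρ0 / (n + 1)` take the net of bumps `(J, p, χ)` and the functions `Σ_j q_j χ_j / Σ_j χ_j` with rational `q_j` in `[0, 1]`.
-/

open scoped ContDiff Topology InnerProductSpace ENNReal
open MeasureTheory Filter Set

namespace Pool.Agent.VD

open Pool.Agent.RPQ (PN PJ UN upd)
open Pool.Agent.VQ (rk)
open Pool.Agent.VN (aN)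

/-- the rational numbers in the unit interval -/
def LND_Q : Type := {q : ℚ // 0 ≤ q ∧ q ≤ 1}

instance LND_instCountable : Countable LND_Q := by
  unfold LND_Q
  infer_instance

instance LND_instInhabited : Inhabited LND_Q := ⟨⟨0, le_refl _, zero_le_one⟩⟩

/-- a quotient of sums of bumps -/
noncomputable def LND_h {d J : ℕ} (χ : Fin J → V d → ℝ) (q : Fin J → LND_Q) (x : V d) : ℝ := (∑ j, ((q j).1 : ℝ) * χ j x) / ∑ j, χ j x

/-- rational approximation in the unit interval -/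
theorem LND_rat (y e : ℝ) (hy : 0 ≤ y ∧ y ≤ 1) (he : 0 < e) : ∃ q : LND_Q, |y - (q.1 : ℝ)| ≤ e := by
  rcases eq_or_lt_of_le hy.1 with h0 | h0
  · refine ⟨⟨0, le_refl _, zero_le_one⟩, ?_⟩
    rw [← h0]
    simpa using he.le
  · obtain ⟨q, hq1, hq2⟩ := exists_rat_btwn (max_lt h0 (sub_lt_self y he))
    have h1 : (0 : ℝ) < (q : ℝ) := lt_of_le_of_lt (le_max_left _ _) hq1
    have h2 : y - e < (q : ℝ) := lt_of_le_of_lt (le_max_right _ _) hq1
    have h3 : (0 : ℚ) ≤ q := by exact_mod_cast h1.le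
    have h4 : q ≤ (1 : ℚ) := by
      have : (q : ℝ) ≤ ((1 : ℚ) : ℝ) := by push_cast; linarith [hy.2]
      exact_mod_cast this
    refine ⟨⟨q, h3, h4⟩, ?_⟩
    show |y - (q : ℝ)| ≤ e
    rw [abs_le]
    constructor <;> linarith

/-- the sum of the bumps is at least one -/
theorem LND_sum {d : ℕ} {Γ : Type} [Group Γ] [MulAction Γ (V d)] {K : Set (V d)} (hK : FdK Γ K) {C : Set (V d) → ℕ → ℝ} {ρ : ℝ} {J : ℕ} {p : Fin J → V d} {χ : Fin J → V d → ℝ}
    (hρ : 0 < ρ) (hN : NetD Γ K C ρ J p χ) (x : V d) : 1 ≤ ∑ j, χ j x := by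
  obtain ⟨γ, hγ⟩ := hK.cover x
  obtain ⟨j, hj⟩ := hN.cover _ hγ
  have h1 : χ j x = 1 := hN.one j x γ (by linarith)
  calc (1 : ℝ) = χ j x := h1.symm
    _ ≤ ∑ j, χ j x := Finset.single_le_sum (fun i _ => (hN.bd i x).1) (Finset.mem_univ j)

theorem LND_proof (hNTD : NTD_stmt) : LND_stmt := by
  intro d Γ _ _ K hK
  obtain ⟨C, ρ0, hC, hρ0, hρ01, hnet⟩ := hNTD d Γ K hK
  have hρn : ∀ n : ℕ, 0 < ρ0 / ((n : ℝ) + 1) ∧ ρ0 / ((n : ℝ) + 1) ≤ ρ0 := by
    intro n
    have hn : (0 : ℝ) ≤ (n : ℝ) := Nat.cast_nonneg n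
    refine ⟨by positivity, ?_⟩
    exact div_le_self hρ0.le (by linarith)
  have hnet' : ∀ n : ℕ, ∃ (J : ℕ) (p : Fin J → V d) (χ : Fin J → V d → ℝ), NetD Γ K C (ρ0 / ((n : ℝ) + 1)) J p χ := by
    intro n
    obtain ⟨J, p, χ, -, h⟩ := hnet _ (hρn n).1 (hρn n).2
    exact ⟨J, p, χ, h⟩
  choose J p χ hN using hnet'
  obtain ⟨e, he⟩ := exists_surjective_nat (Σ n : ℕ, (Fin (J n) → LND_Q))
  refine ⟨fun i => LND_h (χ (e i).1) (e i).2, ?_, ?_⟩
  · intro i
    show TD Γ (LND_h (χ (e i).1) (e i).2)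
    generalize e i = z
    obtain ⟨n, q⟩ := z
    have hs := LND_sum hK (hρn n).1 (hN n)
    show TD Γ (LND_h (χ n) q)
    refine ⟨?_, ?_, ?_⟩
    · intro γ x
      unfold LND_h
      simp only [(hN n).inv _ γ x]
    · unfold LND_h
      refine ContDiff.div ?_ ?_ ?_
      · exact ContDiff.sum fun j _ => contDiff_const.mul ((hN n).smooth j)
      · exact ContDiff.sum fun j _ => (hN n).smooth j
      · intro x
        exact (lt_of_lt_of_le one_pos (hs x)).ne'
    · intro x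
      have h1 := hs x
      have h0 : (0 : ℝ) < ∑ j, χ n j x := lt_of_lt_of_le one_pos h1
      unfold LND_h
      constructor
      · refine div_nonneg (Finset.sum_nonneg fun j _ => mul_nonneg ?_ ((hN n).bd j x).1) h0.le
        exact_mod_cast (q j).2.1
      · rw [div_le_one h0]
        refine Finset.sum_le_sum fun j _ => ?_
        have h2 : (((q j).1 : ℚ) : ℝ) ≤ 1 := by exact_mod_cast (q j).2.2
        exact mul_le_of_le_one_left ((hN n).bd j x).1 h2
  · intro h hc hinv hb ε hε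
    have hK1 : IsCompact (Metric.cthickening 1 K) := hK.compact.cthickening
    have hu : UniformContinuousOn h (Metric.cthickening 1 K) := hK1.uniformContinuousOn_of_continuous hc.continuousOn
    rw [Metric.uniformContinuousOn_iff] at hu
    obtain ⟨δ, hδ, hδ'⟩ := hu (ε / 2) (by positivity)
    obtain ⟨n, hn⟩ := exists_nat_gt (ρ0 / δ)
    have hnδ : ρ0 / ((n : ℝ) + 1) < δ := by
      rw [div_lt_iff₀ hδ] at hn
      rw [div_lt_iff₀ (by positivity)]
      nlinarith
    have hq : ∀ j : Fin (J n), ∃ q : LND_Q, |h (p n j) - (q.1 : ℝ)| ≤ ε / 2 := fun j => LND_rat _ _ (hb _) (by positivity)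
    choose q hq using hq
    obtain ⟨i, hi⟩ := he ⟨n, q⟩
    refine ⟨i, ?_⟩
    intro x
    show |h x - LND_h (χ (e i).1) (e i).2 x| ≤ ε
    rw [hi]
    show |h x - LND_h (χ n) q x| ≤ ε
    have h1 := LND_sum hK (hρn n).1 (hN n) x
    have h0 : (0 : ℝ) < ∑ j, χ n j x := lt_of_lt_of_le one_pos h1
    have hkey : ∀ j, χ n j x * |h x - ((q j).1 : ℝ)| ≤ χ n j x * ε := by
      intro j
      by_cases hj : χ n j x = 0
      · rw [hj]; simp
      · refine mul_le_mul_of_nonneg_left ?_ ((hN n).bd j x).1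
        obtain ⟨γ, hγ⟩ := (hN n).supp j x hj
        have hp : p n j ∈ K := (hN n).pK j
        have hd : dist (γ • x) (p n j) ≤ ρ0 / ((n : ℝ) + 1) := by rw [dist_eq_norm]; exact hγ
        have hm1 : γ • x ∈ Metric.cthickening 1 K :=
          Metric.mem_cthickening_of_dist_le (γ • x) (p n j) 1 K hp (hd.trans ((hρn n).2.trans hρ01))
        have hm2 : p n j ∈ Metric.cthickening 1 K := Metric.self_subset_cthickening K hp
        have h3 := hδ' (γ • x) hm1 (p n j) hm2 (lt_of_le_of_lt hd hnδ)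
        rw [Real.dist_eq, hinv γ x] at h3
        have h4 := hq j
        calc |h x - ((q j).1 : ℝ)| = |(h x - h (p n j)) + (h (p n j) - ((q j).1 : ℝ))| := by ring_nf
          _ ≤ |h x - h (p n j)| + |h (p n j) - ((q j).1 : ℝ)| := abs_add_le _ _
          _ ≤ ε / 2 + ε / 2 := add_le_add h3.le h4
          _ = ε := by ring
    have he2 : h x - LND_h (χ n) q x = (∑ j, χ n j x * (h x - ((q j).1 : ℝ))) / ∑ j, χ n j x := by
      unfold LND_h
      rw [eq_div_iff h0.ne', sub_mul, div_mul_cancel₀ _ h0.ne', Finset.mul_sum, ← Finset.sum_sub_distrib]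
      refine Finset.sum_congr rfl fun j _ => ?_
      ring
    rw [he2, abs_div, abs_of_pos h0, div_le_iff₀ h0]
    calc |∑ j, χ n j x * (h x - ((q j).1 : ℝ))| ≤ ∑ j, |χ n j x * (h x - ((q j).1 : ℝ))| := Finset.abs_sum_le_sum_abs _ _
      _ = ∑ j, χ n j x * |h x - ((q j).1 : ℝ)| := by
        refine Finset.sum_congr rfl fun j _ => ?_
        rw [abs_mul, abs_of_nonneg ((hN n).bd j x).1]
      _ ≤ ∑ j, χ n j x * ε := Finset.sum_le_sum fun j _ => hkey j
      _ = ε * ∑ j, χ n j x := by rw [← Finset.sum_mul, mul_comm]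

end Pool.Agent.VD
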