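import Pool.Agent.helper11.VD.SpecC
import Pool.Agent.helper16.VD.GCH
import Pool.Agent.helper38.VD.GIN

set_option autoImplicit false

/-!
# MP_07c750, project VD, block C, row NAT: naturality of the curvature under isometries

`NAT_core`: an isometry `φ` of a metric `G` of `ℝ^d` satisfies `R(T u, T v) T w = T R(u, v) w`, `T = Dφ`.
-/

open scoped ContDiff Topology InnerProductSpace
open MeasureTheory Filter Set

namespace Pool.Agent.VD

/-- directional derivative along a line -/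
theorem NAT_dir {E F : Type} [NormedAddCommGroup E] [NormedSpace ℝ E] [NormedAddCommGroup F] [NormedSpace ℝ F] {f : E → F} {x : E} (hf : DifferentiableAt ℝ f x) (w : E) :
    HasDerivAt (fun s : ℝ => f (x + s • w)) (fderiv ℝ f x w) 0 := by
  have h1 : HasDerivAt (fun s : ℝ => x + s • w) w 0 := by
    simpa using ((hasDerivAt_id (0 : ℝ)).smul_const w).const_add x
  have h2 : HasFDerivAt f (fderiv ℝ f x) (x + (0 : ℝ) • w) := by simpa using hf.hasFDerivAt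
  exact h2.comp_hasDerivAt 0 h1

/-- symmetry of the second derivative -/
theorem NAT_sym {E F : Type} [NormedAddCommGroup E] [NormedSpace ℝ E] [NormedAddCommGroup F] [NormedSpace ℝ F] {f : E → F} (hf : ContDiff ℝ ∞ f) (x u v : E) :
    fderiv ℝ (fderiv ℝ f) x u v = fderiv ℝ (fderiv ℝ f) x v u := by
  refine (hf.contDiffAt.isSymmSndFDerivAt ?_) u v
  rw [minSmoothness_of_isRCLikeNormedField]
  exact WithTop.coe_le_coe.2 (le_top : (2 : ℕ∞) ≤ ⊤)

/-- the derivative of a smooth map is smooth -/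
theorem NAT_fd {E F : Type} [NormedAddCommGroup E] [NormedSpace ℝ E] [NormedAddCommGroup F] [NormedSpace ℝ F] {f : E → F} (hf : ContDiff ℝ ∞ f) : ContDiff ℝ ∞ (fderiv ℝ f) :=
  hf.fderiv_right (m := ∞) (by simp)

variable {d : ℕ}

/-- the derivative of the isometry equation -/
theorem NAT_fst {G : V d → V d →L[ℝ] V d} (hG : IsMetric G) {φ : V d → V d} (hφ : ContDiff ℝ ∞ φ)
    (hi : ∀ x u v : V d, ⟪G (φ x) (fderiv ℝ φ x u), fderiv ℝ φ x v⟫_ℝ = ⟪G x u, v⟫_ℝ) (x u v w : V d) :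
    ⟪fderiv ℝ G (φ x) (fderiv ℝ φ x w) (fderiv ℝ φ x u), fderiv ℝ φ x v⟫_ℝ + ⟪G (φ x) (fderiv ℝ (fderiv ℝ φ) x w u), fderiv ℝ φ x v⟫_ℝ +
      ⟪G (φ x) (fderiv ℝ φ x u), fderiv ℝ (fderiv ℝ φ) x w v⟫_ℝ = ⟪fderiv ℝ G x w u, v⟫_ℝ := by
  have hGd : ∀ y, DifferentiableAt ℝ G y := fun y => hG.smooth.differentiable (by simp) y
  have hφd : ∀ y, DifferentiableAt ℝ φ y := fun y => hφ.differentiable (by simp) y
  have hTd : ∀ y, DifferentiableAt ℝ (fderiv ℝ φ) y := fun y => (NAT_fd hφ).differentiable (by simp) y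
  have h1 : HasDerivAt (fun s : ℝ => G (φ (x + s • w))) (fderiv ℝ G (φ x) (fderiv ℝ φ x w)) 0 := by
    have h0 := NAT_dir (hφd x) w
    have h2 : HasFDerivAt G (fderiv ℝ G (φ x)) (φ (x + (0 : ℝ) • w)) := by simpa using (hGd (φ x)).hasFDerivAt
    exact h2.comp_hasDerivAt 0 h0
  have h2 : HasDerivAt (fun s : ℝ => fderiv ℝ φ (x + s • w)) (fderiv ℝ (fderiv ℝ φ) x w) 0 := NAT_dir (hTd x) w
  have h3 : ∀ z : V d, HasDerivAt (fun s : ℝ => fderiv ℝ φ (x + s • w) z) (fderiv ℝ (fderiv ℝ φ) x w z) 0 := by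
    intro z
    have h0 := h2.clm_apply (hasDerivAt_const (0 : ℝ) z)
    simpa using h0
  have h5 : HasDerivAt (fun s : ℝ => G (φ (x + s • w)) (fderiv ℝ φ (x + s • w) u))
      (fderiv ℝ G (φ x) (fderiv ℝ φ x w) (fderiv ℝ φ x u) + G (φ x) (fderiv ℝ (fderiv ℝ φ) x w u)) 0 := by
    have h0 := h1.clm_apply (h3 u)
    simpa using h0
  have h6 := h5.inner ℝ (h3 v)
  have h7 : HasDerivAt (fun s : ℝ => ⟪G (x + s • w) u, v⟫_ℝ) ⟪fderiv ℝ G x w u, v⟫_ℝ 0 := by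
    have h0 : HasDerivAt (fun s : ℝ => G (x + s • w) u) (fderiv ℝ G x w u) 0 := by
      have h00 := (NAT_dir (hGd x) w).clm_apply (hasDerivAt_const (0 : ℝ) u)
      simpa using h00
    have h01 := h0.inner ℝ (hasDerivAt_const (0 : ℝ) v)
    simpa using h01
  have h8 : (fun s : ℝ => ⟪G (φ (x + s • w)) (fderiv ℝ φ (x + s • w) u), fderiv ℝ φ (x + s • w) v⟫_ℝ) = fun s : ℝ => ⟪G (x + s • w) u, v⟫_ℝ := by
    funext s
    exact hi _ _ _
  rw [h8] at h6
  have h9 := h6.unique h7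
  simp only [zero_smul, add_zero, inner_add_left] at h9
  rw [← h9]
  ring

/-- the derivative of the inverse map -/
theorem NAT_surj {φ ψ : V d → V d} (hφ : ContDiff ℝ ∞ φ) (hψ : ContDiff ℝ ∞ ψ) (h1 : ∀ z, φ (ψ z) = z) (h2 : ∀ z, ψ (φ z) = z) (x w : V d) :
    fderiv ℝ φ x (fderiv ℝ ψ (φ x) w) = w := by
  have hφd : HasFDerivAt φ (fderiv ℝ φ x) (ψ (φ x)) := by
    rw [h2]
    exact (hφ.differentiable (by simp) x).hasFDerivAt
  have hψd : HasFDerivAt ψ (fderiv ℝ ψ (φ x)) (φ x) := (hψ.differentiable (by simp) _).hasFDerivAt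
  have h3 := hφd.comp (φ x) hψd
  have h4 : φ ∘ ψ = id := by
    funext z
    exact h1 z
  rw [h4] at h3
  have h5 := h3.unique (hasFDerivAt_id (φ x))
  have h6 := congrArg (fun A : V d →L[ℝ] V d => A w) h5
  exact h6

/-- transformation of the Christoffel symbols -/
theorem NAT_chr (hC : GCH_stmt) {G : V d → V d →L[ℝ] V d} (hG : IsMetric G) {φ ψ : V d → V d} (hφ : ContDiff ℝ ∞ φ) (hψ : ContDiff ℝ ∞ ψ) (h1 : ∀ z, φ (ψ z) = z) (h2 : ∀ z, ψ (φ z) = z)
    (hi : ∀ x u v : V d, ⟪G (φ x) (fderiv ℝ φ x u), fderiv ℝ φ x v⟫_ℝ = ⟪G x u, v⟫_ℝ) (x u v : V d) :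
    Chr G (φ x) (fderiv ℝ φ x u) (fderiv ℝ φ x v) = fderiv ℝ φ x (Chr G x u v) - fderiv ℝ (fderiv ℝ φ) x u v := by
  obtain ⟨-, -, -, hK, -, -, -, -⟩ := hC d G hG
  rw [← sub_eq_zero]
  by_contra hne
  have hpos := hG.pos (φ x) _ hne
  set a := Chr G (φ x) (fderiv ℝ φ x u) (fderiv ℝ φ x v) - (fderiv ℝ φ x (Chr G x u v) - fderiv ℝ (fderiv ℝ φ) x u v) with ha
  have key : ∀ w : V d, ⟪G (φ x) a, fderiv ℝ φ x w⟫_ℝ = 0 := by
    intro w
    have k1 := hK (φ x) (fderiv ℝ φ x u) (fderiv ℝ φ x v) (fderiv ℝ φ x w)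
    have k2 := hK x u v w
    have k3 := NAT_fst hG hφ hi x v w u
    have k4 := NAT_fst hG hφ hi x u w v
    have k5 := NAT_fst hG hφ hi x u v w
    have k6 := hi x (Chr G x u v) w
    have s1 : fderiv ℝ (fderiv ℝ φ) x v u = fderiv ℝ (fderiv ℝ φ) x u v := NAT_sym hφ x v u
    have s2 : fderiv ℝ (fderiv ℝ φ) x w u = fderiv ℝ (fderiv ℝ φ) x u w := NAT_sym hφ x w u
    have s3 : fderiv ℝ (fderiv ℝ φ) x w v = fderiv ℝ (fderiv ℝ φ) x v w := NAT_sym hφ x w v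
    have s4 : ⟪G (φ x) (fderiv ℝ φ x v), fderiv ℝ (fderiv ℝ φ) x u w⟫_ℝ = ⟪G (φ x) (fderiv ℝ (fderiv ℝ φ) x u w), fderiv ℝ φ x v⟫_ℝ := by
      rw [hG.symm, real_inner_comm]
    rw [s1] at k4
    rw [s2, s3] at k5
    rw [ha, map_sub, map_sub, inner_sub_left, inner_sub_left]
    linarith
  have h3 := key (fderiv ℝ ψ (φ x) a)
  rw [NAT_surj hφ hψ h1 h2] at h3
  linarith

/-- the derivative of the Christoffel symbols along curves -/
theorem NAT_F (hC : GCH_stmt) {G : V d → V d →L[ℝ] V d} (hG : IsMetric G) {c a b : ℝ → V d} {c' a' b' : V d} (hc : HasDerivAt c c' 0) (ha : HasDerivAt a a' 0) (hb : HasDerivAt b b' 0) :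
    HasDerivAt (fun s => Chr G (c s) (a s) (b s)) (fderiv ℝ (fun y => Chr G y (a 0) (b 0)) (c 0) c' + Chr G (c 0) a' (b 0) + Chr G (c 0) (a 0) b') 0 := by
  obtain ⟨hS, hL, hsm, -, -, -, -, -⟩ := hC d G hG
  set F : V d × V d × V d → V d := fun q => Chr G q.1 q.2.1 q.2.2 with hF
  have hFd : ∀ q, DifferentiableAt ℝ F q := fun q => hsm.differentiable (by simp) q
  have h1 : HasDerivAt (fun s => F (c s, a s, b s)) (fderiv ℝ F (c 0, a 0, b 0) (c', a', b')) 0 :=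
    HasFDerivAt.comp_hasDerivAt (f := fun s => (c s, a s, b s)) (0 : ℝ) (hFd _).hasFDerivAt (hc.prodMk (ha.prodMk hb))
  have e1 : fderiv ℝ F (c 0, a 0, b 0) (c', 0, 0) = fderiv ℝ (fun y => Chr G y (a 0) (b 0)) (c 0) c' := by
    have k1 := NAT_dir (hFd (c 0, a 0, b 0)) (c', 0, 0)
    have hd : DifferentiableAt ℝ (fun y => Chr G y (a 0) (b 0)) (c 0) := by
      have hcomp : (fun y => Chr G y (a 0) (b 0)) = F ∘ fun y => (y, a 0, b 0) := rfl
      rw [hcomp]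
      exact DifferentiableAt.comp (c 0) (hFd _) (by fun_prop)
    have k2 := NAT_dir hd c'
    refine k1.unique ?_
    have hfun : (fun s : ℝ => F ((c 0, a 0, b 0) + s • (c', (0 : V d), (0 : V d)))) = fun s : ℝ => Chr G (c 0 + s • c') (a 0) (b 0) := by
      funext s
      simp [hF]
    rw [hfun]
    exact k2
  have e2 : fderiv ℝ F (c 0, a 0, b 0) (0, a', 0) = Chr G (c 0) a' (b 0) := by
    have k1 := NAT_dir (hFd (c 0, a 0, b 0)) (0, a', 0)
    refine k1.unique ?_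
    have hfun : (fun s : ℝ => F ((c 0, a 0, b 0) + s • ((0 : V d), a', (0 : V d)))) = fun s : ℝ => Chr G (c 0) (a 0) (b 0) + s • Chr G (c 0) a' (b 0) := by
      funext s
      simp [hF, hL]
    rw [hfun]
    simpa using ((hasDerivAt_id (0 : ℝ)).smul_const (Chr G (c 0) a' (b 0))).const_add (Chr G (c 0) (a 0) (b 0))
  have e3 : fderiv ℝ F (c 0, a 0, b 0) (0, 0, b') = Chr G (c 0) (a 0) b' := by
    have k1 := NAT_dir (hFd (c 0, a 0, b 0)) (0, 0, b')
    refine k1.unique ?_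
    have hfun : (fun s : ℝ => F ((c 0, a 0, b 0) + s • ((0 : V d), (0 : V d), b'))) = fun s : ℝ => Chr G (c 0) (a 0) (b 0) + s • Chr G (c 0) (a 0) b' := by
      funext s
      simp only [hF, Prod.smul_mk, Prod.mk_add_mk, smul_zero, add_zero]
      rw [hS (c 0) (a 0) (b 0 + s • b'), hL, hS (c 0) (b 0) (a 0), hS (c 0) b' (a 0)]
    rw [hfun]
    simpa using ((hasDerivAt_id (0 : ℝ)).smul_const (Chr G (c 0) (a 0) b')).const_add (Chr G (c 0) (a 0) (b 0))
  have e4 : ((c', a', b') : V d × V d × V d) = (c', 0, 0) + (0, a', 0) + (0, 0, b') := by simp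
  rw [e4, map_add, map_add, e1, e2, e3] at h1
  exact h1

/-- **Naturality of the curvature** -/
theorem NAT_core (hC : GCH_stmt) {G : V d → V d →L[ℝ] V d} (hG : IsMetric G) {φ ψ : V d → V d} (hφ : ContDiff ℝ ∞ φ) (hψ : ContDiff ℝ ∞ ψ) (h1 : ∀ z, φ (ψ z) = z) (h2 : ∀ z, ψ (φ z) = z)
    (hi : ∀ x u v : V d, ⟪G (φ x) (fderiv ℝ φ x u), fderiv ℝ φ x v⟫_ℝ = ⟪G x u, v⟫_ℝ) (x u v w : V d) :
    Riem G (φ x) (fderiv ℝ φ x u) (fderiv ℝ φ x v) (fderiv ℝ φ x w) = fderiv ℝ φ x (Riem G x u v w) := by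
  obtain ⟨hS, hL, hsm, -, -, -, -, -⟩ := hC d G hG
  have hφd : ∀ y, DifferentiableAt ℝ φ y := fun y => hφ.differentiable (by simp) y
  have hTd : ∀ y, DifferentiableAt ℝ (fderiv ℝ φ) y := fun y => (NAT_fd hφ).differentiable (by simp) y
  have hw : ContDiff ℝ ∞ (fun y => fderiv ℝ φ y w) := (NAT_fd hφ).clm_apply contDiff_const
  have hw1 : ∀ y a : V d, fderiv ℝ (fun y => fderiv ℝ φ y w) y a = fderiv ℝ (fderiv ℝ φ) y a w := by
    intro y a
    have k := (hTd y).hasFDerivAt.clm_apply (hasFDerivAt_const w y)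
    rw [k.fderiv]
    simp
  have hE : ∀ a b : V d, fderiv ℝ (fun y => Chr G y (fderiv ℝ φ x b) (fderiv ℝ φ x w)) (φ x) (fderiv ℝ φ x a) + Chr G (φ x) (fderiv ℝ (fderiv ℝ φ) x a b) (fderiv ℝ φ x w) +
      Chr G (φ x) (fderiv ℝ φ x b) (fderiv ℝ (fderiv ℝ φ) x a w) =
      fderiv ℝ (fderiv ℝ φ) x a (Chr G x b w) + fderiv ℝ φ x (fderiv ℝ (fun y => Chr G y b w) x a) - fderiv ℝ (fderiv ℝ (fun y => fderiv ℝ φ y w)) x a b := by
    intro a b
    have g1 : HasDerivAt (fun s : ℝ => fderiv ℝ φ (x + s • a)) (fderiv ℝ (fderiv ℝ φ) x a) 0 := NAT_dir (hTd x) a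
    have g2 : ∀ z : V d, HasDerivAt (fun s : ℝ => fderiv ℝ φ (x + s • a) z) (fderiv ℝ (fderiv ℝ φ) x a z) 0 := by
      intro z
      have h0 := g1.clm_apply (hasDerivAt_const (0 : ℝ) z)
      simpa using h0
    have k1 := NAT_F hC hG (NAT_dir (hφd x) a) (g2 b) (g2 w)
    have hcd : DifferentiableAt ℝ (fun y => Chr G y b w) x := by
      have hcomp : (fun y => Chr G y b w) = (fun q : V d × V d × V d => Chr G q.1 q.2.1 q.2.2) ∘ fun y => (y, b, w) := rfl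
      rw [hcomp]
      exact DifferentiableAt.comp x (hsm.differentiable (by simp) _) (by fun_prop)
    have k2 := g1.clm_apply (NAT_dir hcd a)
    have k3 : HasDerivAt (fun s : ℝ => fderiv ℝ (fderiv ℝ φ) (x + s • a) b w) (fderiv ℝ (fderiv ℝ (fun y => fderiv ℝ φ y w)) x a b) 0 := by
      have k4 := (NAT_dir ((NAT_fd hw).differentiable (by simp) x) a).clm_apply (hasDerivAt_const (0 : ℝ) b)
      have hfun : (fun s : ℝ => fderiv ℝ (fun y => fderiv ℝ φ y w) (x + s • a) b) = fun s : ℝ => fderiv ℝ (fderiv ℝ φ) (x + s • a) b w := by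
        funext s
        exact hw1 _ _
      rw [hfun] at k4
      simpa using k4
    have k5 := k2.sub k3
    have hfun : (fun s : ℝ => Chr G (φ (x + s • a)) (fderiv ℝ φ (x + s • a) b) (fderiv ℝ φ (x + s • a) w)) =
        fun s : ℝ => fderiv ℝ φ (x + s • a) (Chr G (x + s • a) b w) - fderiv ℝ (fderiv ℝ φ) (x + s • a) b w := by
      funext s
      exact NAT_chr hC hG hφ hψ h1 h2 hi _ _ _
    rw [hfun] at k1
    have k6 := k1.unique k5
    simpa using k6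
  have hSub : ∀ y a b b' : V d, Chr G y a (b - b') = Chr G y a b - Chr G y a b' := by
    intro y a b b'
    rw [hS y a (b - b'), sub_eq_add_neg, ← neg_one_smul ℝ b', hL, hS y a b, hS y a b', neg_one_smul, ← sub_eq_add_neg]
  have hT := fun a b : V d => NAT_chr hC hG hφ hψ h1 h2 hi x a b
  have q1 := hE u v
  have q2 := hE v u
  have s1 : fderiv ℝ (fderiv ℝ φ) x v u = fderiv ℝ (fderiv ℝ φ) x u v := NAT_sym hφ x v u
  have s2 : fderiv ℝ (fderiv ℝ (fun y => fderiv ℝ φ y w)) x v u = fderiv ℝ (fderiv ℝ (fun y => fderiv ℝ φ y w)) x u v := NAT_sym hw x v u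
  rw [s1, s2] at q2
  have q1' := eq_sub_of_add_eq (eq_sub_of_add_eq q1)
  have q2' := eq_sub_of_add_eq (eq_sub_of_add_eq q2)
  unfold Riem
  rw [q1', q2', hT v w, hT u w, hSub, hSub, hT u (Chr G x v w), hT v (Chr G x u w)]
  simp only [map_add, map_sub]
  abel

theorem NAT_proof : NAT_stmt := by
  intro d Γ _ _ G hG hD γ x u v w
  exact NAT_core (GCH_proof GIN_proof) hG (hD.smooth γ) (hD.smooth γ⁻¹) (fun z => smul_inv_smul γ z) (fun z => inv_smul_smul γ z) (hD.isom γ) x u v w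

end Pool.Agent.VD
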