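import Pool.Agent.helper62.VD.SpecL2

set_option autoImplicit false

/-!
# MP_07c750, project VD, block A5, row ALON: one step of the long beam

Re-expansion for one unit of time (ALST), change of the chart (ALCC), data along long orbits (ALDA).
-/

open scoped ContDiff Topology InnerProductSpace ComplexConjugate ENNReal
open MeasureTheory Filter Set

namespace Pool.Agent.VD

open Pool.Agent.VQ (CH cmZ)

/-- larger bounds -/
theorem ALON_lag {d : ℕ} {L L' : ℝ} {Y P : MC d} (h : Lag L Y P) (hL : L ≤ L') : Lag L' Y P :=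
  ⟨h.sym, h.pos, fun i j => (h.bdY i j).trans hL, fun i j => (h.bdP i j).trans hL⟩

theorem ALON_QF {d : ℕ} {Γ : Type} [Group Γ] [MulAction Γ (V d)] (G : V d → V d →L[ℝ] V d) (χ : V d → ℝ) (ch : ℝ → ℝ) (ζ R : ℝ) (c : ℂ) (φ : V d → ℂ) :
    (QF (Γ := Γ) G χ ch ζ R fun z => c * φ z) = fun y => c * QF (Γ := Γ) G χ ch ζ R φ y := by
  funext y
  unfold QF
  rw [← integral_const_mul]
  refine integral_congr_ae (Filter.Eventually.of_forall fun z => ?_)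
  simp only [mul_assoc]

theorem ALON_sF {d : ℕ} {Γ : Type} [Group Γ] [MulAction Γ (V d)] (G : V d → V d →L[ℝ] V d) (r0 R : ℝ) (f : YS Γ d → V d → ℂ) (c : ℂ) (v : YS Γ d → ℂ) (z : V d) :
    sF G r0 R f (fun y => c * v y) z = c * sF G r0 R f v z := by
  unfold sF
  rw [← integral_const_mul]
  refine integral_congr_ae (Filter.Eventually.of_forall fun y => ?_)
  simp only [mul_assoc]

theorem ALON_nnc {d : ℕ} (G : V d → V d →L[ℝ] V d) (F : Set (V d)) (c : ℂ) (φ : V d → ℂ) : nn G F (fun z => c * φ z) = ‖c‖ ^ 2 * nn G F φ := by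
  unfold nn
  rw [← integral_const_mul]
  refine integral_congr_ae (Filter.Eventually.of_forall fun y => ?_)
  simp only [norm_mul, mul_pow]

theorem ALON_int {d : ℕ} {Γ : Type} [Group Γ] [MulAction Γ (V d)] {G : V d → V d →L[ℝ] V d} (hfin : ∀ S : Set (V d), IsCompact S → mv G S < ⊤) {φ : V d → ℂ}
    (h : FH (⊥ : Subgroup Γ) univ φ) : Integrable (fun z => ‖φ z‖ ^ 2) (mv G) := by
  have hloc : IsFiniteMeasureOnCompacts (mv G) := ⟨fun S hS => hfin S hS⟩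
  obtain ⟨b, hb⟩ := h.supp
  refine Continuous.integrable_of_hasCompactSupport (h.cont.norm.pow 2) ?_
  refine HasCompactSupport.of_support_subset_isCompact (isCompact_closedBall (0 : V d) b) ?_
  intro z hz
  rw [Function.mem_support] at hz
  have hz2 : φ z ≠ 0 := by
    intro h0
    apply hz
    rw [h0]
    simp
  simpa using hb z (mem_univ z) hz2

/-- the norm of a sum -/
theorem ALON_add {d : ℕ} {Γ : Type} [Group Γ] [MulAction Γ (V d)] {G : V d → V d →L[ℝ] V d} (hfin : ∀ S : Set (V d), IsCompact S → mv G S < ⊤) {u v : V d → ℂ}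
    (hu : FH (⊥ : Subgroup Γ) univ u) (hv : FH (⊥ : Subgroup Γ) univ v) : nn G univ (fun z => u z + v z) ≤ 2 * (nn G univ u + nn G univ v) := by
  have h1 := ALON_int hfin hu
  have h2 := ALON_int hfin hv
  unfold nn
  rw [Measure.restrict_univ, ← integral_add h1 h2, ← integral_const_mul]
  refine integral_mono_of_nonneg (Filter.Eventually.of_forall fun z => by positivity) ((h1.add h2).const_mul 2) (Filter.Eventually.of_forall fun z => ?_)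
  show ‖u z + v z‖ ^ 2 ≤ 2 * (‖u z‖ ^ 2 + ‖v z‖ ^ 2)
  have h3 : ‖u z + v z‖ ≤ ‖u z‖ + ‖v z‖ := norm_add_le _ _
  have h4 : ‖u z + v z‖ ^ 2 ≤ (‖u z‖ + ‖v z‖) ^ 2 := pow_le_pow_left₀ (norm_nonneg _) h3 2
  nlinarith [sq_nonneg (‖u z‖ - ‖v z‖)]

theorem ALON_sub {d : ℕ} {Γ : Type} [Group Γ] [MulAction Γ (V d)] {u v : V d → ℂ}
    (hu : FH (⊥ : Subgroup Γ) univ u) (hv : FH (⊥ : Subgroup Γ) univ v) : FH (⊥ : Subgroup Γ) univ (fun z => u z - v z) := by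
  obtain ⟨b1, hb1⟩ := hu.supp
  obtain ⟨b2, hb2⟩ := hv.supp
  refine ⟨hu.cont.sub hv.cont, ?_, ⟨max b1 b2, ?_⟩⟩
  · intro γ hγ z
    rw [hu.inv γ hγ z, hv.inv γ hγ z]
  · intro z hz h
    by_cases h1 : u z = 0
    · have h2 : v z ≠ 0 := by
        intro h2
        apply h
        rw [h1, h2, sub_zero]
      exact (hb2 z hz h2).trans (le_max_right _ _)
    · exact (hb1 z hz h1).trans (le_max_left _ _)

theorem ALON_mul {d : ℕ} {Γ : Type} [Group Γ] [MulAction Γ (V d)] {u : V d → ℂ}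
    (hu : FH (⊥ : Subgroup Γ) univ u) (c : ℂ) : FH (⊥ : Subgroup Γ) univ (fun z => c * u z) := by
  obtain ⟨b1, hb1⟩ := hu.supp
  refine ⟨continuous_const.mul hu.cont, ?_, ⟨b1, ?_⟩⟩
  · intro γ hγ z
    rw [hu.inv γ hγ z]
  · intro z hz h
    refine hb1 z hz fun h1 => h ?_
    rw [h1, mul_zero]

/-- the sup norm of a Gaussian packet -/
theorem ALON_bm {d : ℕ} {G : V d → V d →L[ℝ] V d} {ch : ℝ → ℝ} {ζ2 R CA b : ℝ} {M : MC d} {q : P d} (hch : CH ch) (hR : 1 ≤ R) (hζ : ζ2 ≤ 1 / 2) (hq : ‖q.1‖ ≤ b)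
    (hM : ∀ w : V d, 0 ≤ (qf M w).im) (hCA : 0 ≤ CA) (hA : ∀ x : V d, ‖x‖ ≤ b + 1 → |(Real.sqrt (dens G x))⁻¹| ≤ CA) (w : V d) : ‖bm G ch ζ2 R M q w‖ ≤ CA := by
  have hRp : 0 < R := lt_of_lt_of_le one_pos hR
  unfold bm
  rw [norm_mul, Complex.norm_exp]
  by_cases hc : ch (R ^ (1 - 2 * ζ2) * ‖w - q.1‖ ^ 2) = 0
  · rw [hc]
    simp [hCA]
  · have h1 : R ^ (1 - 2 * ζ2) * ‖w - q.1‖ ^ 2 < 1 := by
      by_contra h
      exact hc (hch.zero _ (not_lt.1 h))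
    have h2 : (1 : ℝ) ≤ R ^ (1 - 2 * ζ2) := Real.one_le_rpow hR (by linarith)
    have h3 : ‖w - q.1‖ ^ 2 < 1 := by nlinarith [sq_nonneg ‖w - q.1‖]
    have h4 : ‖w - q.1‖ ≤ 1 := by nlinarith [norm_nonneg (w - q.1)]
    have h5 : ‖w‖ ≤ b + 1 := by
      calc ‖w‖ = ‖(w - q.1) + q.1‖ := by rw [sub_add_cancel]
        _ ≤ ‖w - q.1‖ + ‖q.1‖ := norm_add_le _ _
        _ ≤ b + 1 := by linarith
    have h6 := hA w h5
    have h7 : ‖((ch (R ^ (1 - 2 * ζ2) * ‖w - q.1‖ ^ 2) / Real.sqrt (dens G w) : ℝ) : ℂ)‖ ≤ CA := by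
      rw [Complex.norm_real, Real.norm_eq_abs, div_eq_mul_inv, abs_mul]
      have h8 := hch.bd (R ^ (1 - 2 * ζ2) * ‖w - q.1‖ ^ 2)
      rw [abs_of_nonneg h8.1]
      calc _ ≤ 1 * |(Real.sqrt (dens G w))⁻¹| := mul_le_mul_of_nonneg_right h8.2 (abs_nonneg _)
        _ ≤ CA := by rw [one_mul]; exact h6
    have h9 : Real.exp (Complex.I * (R : ℂ) * (((⟪q.2, w - q.1⟫_ℝ : ℝ) : ℂ) + qf M (w - q.1) / 2)).re ≤ 1 := by
      rw [Real.exp_le_one_iff]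
      have h10 : (Complex.I * (R : ℂ) * (((⟪q.2, w - q.1⟫_ℝ : ℝ) : ℂ) + qf M (w - q.1) / 2)).re = -(R * ((qf M (w - q.1)).im / 2)) := by
        have h11 : (qf M (w - q.1) / 2).im = (qf M (w - q.1)).im / 2 := by
          rw [show (2 : ℂ) = ((2 : ℝ) : ℂ) by norm_num, Complex.div_ofReal_im]
        simp only [Complex.mul_re, Complex.mul_im, Complex.I_re, Complex.I_im, Complex.ofReal_re, Complex.ofReal_im, Complex.add_re, Complex.add_im, h11]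
        ring
      rw [h10]
      have := hM (w - q.1)
      have h12 : 0 ≤ R * ((qf M (w - q.1)).im / 2) := by positivity
      linarith
    calc _ ≤ CA * 1 := mul_le_mul h7 h9 (Real.exp_pos _).le hCA
      _ = CA := mul_one _

theorem ALON_proof (h1 : ALST_stmt) (h2 : ALCC_stmt) (h3 : ALDA_stmt) (h4 : ALSY_stmt) (h5 : ALCH_stmt) (h6 : ALFX_stmt) (h7 : ABRD_stmt) (h8 : AHLD_stmt)
    (h9 : ALWT_stmt) (h10 : AFDD_stmt) (h11 : AQSD_stmt) (h12 : AMVI_stmt) : ALON_stmt := by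
  intro d Γ _ _ K k B r0 χ hK hPU
  have hr0 : 1 ≤ r0 := hPU.one
  obtain ⟨CS, hCS, hS⟩ := h1 d Γ K k B r0 χ hK hPU
  obtain ⟨CC, hCC, hC⟩ := h2 d Γ K k B (r0 + 1) hK (by linarith)
  obtain ⟨CD, hCD, hD⟩ := h3 d Γ K k B r0 χ hK hPU
  obtain ⟨CY, hCY, -, hY, hLag1⟩ := h4 d 1
  obtain ⟨CW, hCW, hW⟩ := h9 d Γ K k B (r0 + 1) hK
  obtain ⟨CF, hCF, hF⟩ := h10 d Γ K k B r0 χ hK hPU
  obtain ⟨CA, hCA, hA⟩ := h8 d Γ K k B (r0 + 2) 0
  refine ⟨CS + CC + CD + CY + CW + CF + CA + 8, CD, by linarith, hCD, ?_⟩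
  intro ch e ζ ζ1 ζ2 hch he hζ hζ1 hζ2 hCe hCζ
  set C := CS + CC + CD + CY + CW + CF + CA + 8 with hCdef
  have hζ2p : 0 < ζ2 := by linarith
  have ee : ∀ X : ℝ, X ≤ C → X * e ≤ ζ2 := fun X hX => (mul_le_mul_of_nonneg_right hX he).trans hCe
  have ez : ∀ X : ℝ, X ≤ C → X * ζ2 ≤ 1 := fun X hX => (mul_le_mul_of_nonneg_right hX hζ2p.le).trans hCζ
  have hz8 : 8 * ζ2 ≤ 1 := ez 8 (by rw [hCdef]; linarith)
  obtain ⟨RS, hRS, hS⟩ := hS ch e ζ ζ1 ζ2 hch he hζ hζ1 hζ2 (ee CS (by rw [hCdef]; linarith)) (ez CS (by rw [hCdef]; linarith))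
  obtain ⟨RC, hRC, hC⟩ := hC ch e ζ2 hch he hζ2p (ee CC (by rw [hCdef]; linarith)) (ez CC (by rw [hCdef]; linarith))
  obtain ⟨RW, hRW, hW⟩ := hW ch e ζ2 hch he hζ2p (ee CW (by rw [hCdef]; linarith)) (ez CW (by rw [hCdef]; linarith))
  obtain ⟨RF, hRF, hF⟩ := hF ch ζ ζ1 hch hζ hζ1 (by
    have h := ez CF (by rw [hCdef]; linarith)
    have h' : CF * ζ1 ≤ CF * ζ2 := mul_le_mul_of_nonneg_left hζ2 (by linarith)
    linarith)
  obtain ⟨RB, hRB, hB⟩ := h7 d ch ζ hch hζ (by linarith)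
  obtain ⟨RQ, hRQ, hQ⟩ := h11 d Γ K k B r0 χ ch ζ hK hPU hch hζ (by linarith)
  obtain ⟨R1, hRx⟩ : ∃ R1 : ℝ, ∀ R : ℝ, R1 ≤ R → CY ≤ R ^ ζ2 ∧ 4 ≤ R ^ ζ2 ∧ 14 ≤ R ^ (1 / 4 : ℝ) := by
    have t1 := (tendsto_rpow_atTop hζ2p).eventually_ge_atTop CY
    have t2 := (tendsto_rpow_atTop hζ2p).eventually_ge_atTop 4
    have t3 := (tendsto_rpow_atTop (show (0 : ℝ) < 1 / 4 by norm_num)).eventually_ge_atTop 14
    obtain ⟨R1, hR1⟩ := Filter.eventually_atTop.1 (t1.and (t2.and t3))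
    exact ⟨R1, fun R hR => hR1 R hR⟩
  refine ⟨max (max (max RS RC) (max RW RF)) (max (max RB RQ) (max R1 1)), ?_, ?_⟩
  · exact (le_max_right R1 1).trans ((le_max_right _ _).trans (le_max_right _ _))
  intro R G Φ y n κ κ' a hR hOK hy hC1 hb hb' hNam
  have hRS' : RS ≤ R := (le_max_left _ _).trans ((le_max_left _ _).trans ((le_max_left _ _).trans hR))
  have hRC' : RC ≤ R := (le_max_right _ _).trans ((le_max_left _ _).trans ((le_max_left _ _).trans hR))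
  have hRW' : RW ≤ R := (le_max_left _ _).trans ((le_max_right _ _).trans ((le_max_left _ _).trans hR))
  have hRF' : RF ≤ R := (le_max_right _ _).trans ((le_max_right _ _).trans ((le_max_left _ _).trans hR))
  have hRB' : RB ≤ R := (le_max_left _ _).trans ((le_max_left _ _).trans ((le_max_right _ _).trans hR))
  have hRQ' : RQ ≤ R := (le_max_right _ _).trans ((le_max_left _ _).trans ((le_max_right _ _).trans hR))
  have hR1' : R1 ≤ R := (le_max_left _ _).trans ((le_max_right _ _).trans ((le_max_right _ _).trans hR))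
  have hR1 : (1 : ℝ) ≤ R := (le_max_right _ _).trans ((le_max_right _ _).trans ((le_max_right _ _).trans hR))
  have hRp : (0 : ℝ) < R := lt_of_lt_of_le one_pos hR1
  obtain ⟨t1, t2, t3⟩ := hRx R hR1'
  have hcls := hOK.cls
  obtain ⟨-, -, -, -, hfin, -, -, -, -⟩ := h12 d Γ K k B G hK hcls
  obtain ⟨hlsm, -, hlm, -, -, hΦl, -, -, -, -, -⟩ := h6 d Γ K k B G Φ hOK
  obtain ⟨-, -, -, -, -, -, -, -, hcpos, hcup, -⟩ := hB R hRB'
  have hp : ‖y.2.1‖ ≤ r0 := hy.1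
  have hE : |Ep G y.2| ≤ 7 / 4 * R ^ (-(1 / 4) : ℝ) := hy.2
  have hr4 : R ^ (-(1 / 4) : ℝ) ≤ 1 / 14 := by
    rw [Real.rpow_neg hRp.le, show (1 : ℝ) / 14 = 14⁻¹ by norm_num]
    exact inv_anti₀ (by norm_num) t3
  have hE8 : |Ep G y.2| ≤ 1 / 8 := by linarith
  obtain ⟨hL0, hEn, -⟩ := hD G Φ hOK y.2 n κ hp hE8 hb
  obtain ⟨hL1, hEn', -⟩ := hD G Φ hOK y.2 (n + 1) κ' hp hE8 hb'
  have hpw : CD ^ (n + 1) ≤ R ^ e := (pow_le_pow_right₀ hCD (by omega)).trans hC1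
  replace hL0 := ALON_lag hL0 hpw
  replace hL1 := ALON_lag hL1 hC1
  -- the composition
  have hch1 : ∀ p : P d, fch Φ (κ⁻¹ * κ') 1 (fch Φ κ n p) = fch Φ κ' ((n + 1 : ℕ) : ℝ) p := by
    intro p
    have e1 : (κ⁻¹ * κ')⁻¹ * κ⁻¹ = κ'⁻¹ := by group
    have e2 : (1 : ℝ) + n = ((n + 1 : ℕ) : ℝ) := by push_cast; ring
    unfold fch
    rw [hΦl, ← hlm, ← hOK.flow.add, e1, e2]
  have hdf : ∀ (γ : Γ) (t : ℝ) (p : P d), DifferentiableAt ℝ (fch Φ γ t) p := by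
    intro γ t p
    have hc : ContDiff ℝ ∞ (fch Φ γ t) := (hlsm γ⁻¹).comp (hOK.flow.smooth.comp (contDiff_const.prodMk contDiff_id))
    exact hc.differentiable (by simp) p
  obtain ⟨hYc, hPc, -, -⟩ := h5 d (fch Φ κ n) (fch Φ (κ⁻¹ * κ') 1) y.2 1 (Complex.I • 1) (hdf _ _ _) (hdf _ _ _)
  have hfun : (fun q => fch Φ (κ⁻¹ * κ') 1 (fch Φ κ n q)) = fch Φ κ' ((n + 1 : ℕ) : ℝ) := funext hch1
  rw [hfun] at hYc hPc
  have hEq : |Ep G (fch Φ κ n y.2)| ≤ 7 / 4 * R ^ (-(1 / 4) : ℝ) := by rw [hEn]; exact hE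
  have hEq' : |Ep G (fch Φ κ' ((n + 1 : ℕ) : ℝ) y.2)| ≤ 7 / 4 * R ^ (-(1 / 4) : ℝ) := by rw [hEn']; exact hE
  have hEq4 : |Ep G (fch Φ κ n y.2)| ≤ 1 / 4 := by rw [hEn]; linarith
  obtain ⟨hFb, hnb, hSn⟩ := hS R G Φ (y.1 * κ) (fch Φ κ n y.2) _ _ hRS' hOK hb hEq hL0
  obtain ⟨hFb', -, -⟩ := hS R G Φ (y.1 * κ') (fch Φ κ' ((n + 1 : ℕ) : ℝ) y.2) _ _ hRS' hOK hb' hEq' hL1
  have hbt := ((hW R G Φ (y.1 * κ) (fch Φ κ n y.2) _ _ hRW' hOK hb hEq4 hL0).1 1 ⟨zero_le_one, le_refl _⟩).1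
  obtain ⟨a1, ha1, hCn⟩ := hC R G Φ (y.1 * κ) (κ⁻¹ * κ') (fch Φ κ n y.2) _ _ hRC' hOK hb hEq4 (by rw [hch1]; exact hb') hL0
  have hgk : y.1 * κ * (κ⁻¹ * κ') = y.1 * κ' := by group
  rw [← hYc] at ha1
  rw [← hYc, ← hPc, hch1, hgk] at hCn
  obtain ⟨hdet, hd1, hd2, hqf, -⟩ := hY (R ^ e) _ _ (Real.one_le_rpow hR1 he) hL0
  have hdm : Dm (⊥ : Subgroup Γ) (univ : Set (V d)) (univ : Set Γ) := Or.inr ⟨rfl, rfl, rfl⟩
  have hFP := (((hQ R G hRQ' hcls).2.2.2.2.2.2 ⊥ univ univ hdm).1 _ hFb).1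
  obtain ⟨bb, hsF, -⟩ := hF R G Φ hRF' hOK ⊥ univ univ hdm _ hFP
  have hsF1 := (hsF 1 ⟨zero_le_one, le_refl _⟩).1
  -- the size of the amplitude
  have hCYe : CY * (R ^ e) ^ CY ≤ R ^ (2 * ζ2) := by
    rw [← Real.rpow_mul hRp.le, two_mul, Real.rpow_add hRp]
    have h14 : R ^ (e * CY) ≤ R ^ ζ2 := by
      refine Real.rpow_le_rpow_of_exponent_le hR1 ?_
      have := ee CY (by rw [hCdef]; linarith)
      linarith
    exact mul_le_mul t1 h14 (by positivity) (by positivity)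
  unfold Nam at hNam
  have ha : ‖a‖ ^ 2 = ‖(Yf (fch Φ κ n) y.2 1 (Complex.I • 1)).det‖⁻¹ := eq_inv_of_mul_eq_one_left hNam
  have hdpos : 0 < ‖(Yf (fch Φ κ n) y.2 1 (Complex.I • 1)).det‖ := norm_pos_iff.2 hdet
  have haU : ‖a‖ ^ 2 ≤ R ^ (2 * ζ2) := by rw [ha]; exact hd2.trans hCYe
  have haL : (R ^ (2 * ζ2))⁻¹ ≤ ‖a‖ ^ 2 := by
    rw [ha]
    exact inv_anti₀ hdpos (hd1.trans hCYe)
  have hC2 : 2 * ζ2 ≤ C * ζ2 := mul_le_mul_of_nonneg_right (by rw [hCdef]; linarith) hζ2p.le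
  have hup : R ^ (2 * ζ2) ≤ R ^ (C * ζ2) := Real.rpow_le_rpow_of_exponent_le hR1 hC2
  -- the constant factor
  set c0 : ℂ := ((χ y.2.1 * cR d ch ζ R : ℝ) : ℂ) * a with hc0
  have hχ := hPU.bd y.2.1
  have hc0n : ‖c0‖ = χ y.2.1 * cR d ch ζ R * ‖a‖ := by
    rw [hc0, norm_mul, Complex.norm_real, Real.norm_eq_abs, abs_of_nonneg (mul_nonneg hχ.1 hcpos.le)]
  have hc1 : χ y.2.1 * cR d ch ζ R ≤ R ^ (3 * (d : ℝ) / 4) := by
    calc χ y.2.1 * cR d ch ζ R ≤ 1 * cR d ch ζ R := mul_le_mul_of_nonneg_right hχ.2 hcpos.le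
      _ ≤ R ^ (3 * (d : ℝ) / 4) := by rw [one_mul]; exact hcup
  have hc00 : 0 ≤ χ y.2.1 * cR d ch ζ R := mul_nonneg hχ.1 hcpos.le
  have hc2 : ‖c0‖ ^ 2 ≤ R ^ (3 * (d : ℝ) / 2 + 2 * ζ2) := by
    rw [hc0n, mul_pow, Real.rpow_add hRp]
    refine mul_le_mul ?_ haU (by positivity) (by positivity)
    calc (χ y.2.1 * cR d ch ζ R) ^ 2 ≤ (R ^ (3 * (d : ℝ) / 4)) ^ 2 := pow_le_pow_left₀ hc00 hc1 2
      _ = R ^ (3 * (d : ℝ) / 2) := by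
        rw [← Real.rpow_natCast, ← Real.rpow_mul hRp.le]
        congr 1
        push_cast
        ring
  have hLB : LB G Φ χ ch ζ ζ2 R y n κ a = fun z => c0 * bm G ch ζ2 R (Pf (fch Φ κ n) y.2 1 (Complex.I • 1) * (Yf (fch Φ κ n) y.2 1 (Complex.I • 1))⁻¹) (fch Φ κ n y.2) ((y.1 * κ)⁻¹ • z) := rfl
  have hLB' : LB G Φ χ ch ζ ζ2 R y (n + 1) κ' (a * a1) = fun z => c0 * (a1 * bm G ch ζ2 R (Pf (fch Φ κ' ((n + 1 : ℕ) : ℝ)) y.2 1 (Complex.I • 1) * (Yf (fch Φ κ' ((n + 1 : ℕ) : ℝ)) y.2 1 (Complex.I • 1))⁻¹)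
      (fch Φ κ' ((n + 1 : ℕ) : ℝ) y.2) ((y.1 * κ')⁻¹ • z)) := by
    funext z
    unfold LB
    rw [hc0]
    ring
  refine ⟨?_, ?_, ?_, ?_, ?_, a * a1, ?_, ?_⟩
  · rw [hLB]
    exact ALON_mul hFb c0
  · rw [hLB, ALON_nnc]
    calc _ ≤ R ^ (3 * (d : ℝ) / 2 + 2 * ζ2) * R ^ (-((d : ℝ) / 2) + CS * ζ2) := mul_le_mul hc2 hnb (by unfold nn; positivity) (by positivity)
      _ = R ^ ((d : ℝ) + (CS + 2) * ζ2) := by rw [← Real.rpow_add hRp]; congr 1; ring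
      _ ≤ R ^ ((d : ℝ) + C * ζ2) := by
        refine Real.rpow_le_rpow_of_exponent_le hR1 ?_
        have : (CS + 2) * ζ2 ≤ C * ζ2 := mul_le_mul_of_nonneg_right (by rw [hCdef]; linarith) hζ2p.le
        linarith
  · intro z
    rw [hLB]
    show ‖c0 * _‖ ≤ _
    rw [norm_mul, hc0n]
    have hbm := ALON_bm (G := G) (R := R) (ζ2 := ζ2) (CA := CA) (b := r0 + 1) hch hR1 (by linarith) hb hqf (by linarith) (fun x hx => by
      have h20 := ((hA G hK hcls).2.2.2.2 x (by linarith)).2.1 0 (le_refl _)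
      have h21 := h20.2.1
      rw [norm_iteratedFDeriv_zero, Real.norm_eq_abs] at h21
      exact h21) ((y.1 * κ)⁻¹ • z)
    calc _ ≤ (R ^ (3 * (d : ℝ) / 4) * ‖a‖) * CA := mul_le_mul (mul_le_mul_of_nonneg_right hc1 (norm_nonneg _)) hbm (norm_nonneg _) (by positivity)
      _ = CA * R ^ (3 * (d : ℝ) / 4) * ‖a‖ := by ring
      _ ≤ C * R ^ (3 * (d : ℝ) / 4) * ‖a‖ := by
        refine mul_le_mul_of_nonneg_right (mul_le_mul_of_nonneg_right ?_ (by positivity)) (norm_nonneg _)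
        rw [hCdef]
        linarith
  · rw [Real.rpow_neg hRp.le, ← div_eq_mul_inv, div_le_one (by positivity)]
    exact haU.trans hup
  · rw [Real.rpow_neg hRp.le]
    exact (inv_anti₀ (by positivity) hup).trans haL
  · unfold Nam
    rw [norm_mul, mul_pow, mul_assoc, ha1]
    exact hNam
  · have hF : (fun z => sF G r0 R (fP G Φ χ ch ζ ζ1 R 1) (QF (Γ := Γ) G χ ch ζ R (LB G Φ χ ch ζ ζ2 R y n κ a)) z - LB G Φ χ ch ζ ζ2 R y (n + 1) κ' (a * a1) z) =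
        fun z => c0 * ((sF G r0 R (fP G Φ χ ch ζ ζ1 R 1) (QF (Γ := Γ) G χ ch ζ R (fun z => bm G ch ζ2 R (Pf (fch Φ κ n) y.2 1 (Complex.I • 1) * (Yf (fch Φ κ n) y.2 1 (Complex.I • 1))⁻¹) (fch Φ κ n y.2) ((y.1 * κ)⁻¹ • z))) z -
            bt G Φ ch ζ2 R (Yf (fch Φ κ n) y.2 1 (Complex.I • 1)) (Pf (fch Φ κ n) y.2 1 (Complex.I • 1)) (fch Φ κ n y.2) 1 ((y.1 * κ)⁻¹ • z)) +
          (bt G Φ ch ζ2 R (Yf (fch Φ κ n) y.2 1 (Complex.I • 1)) (Pf (fch Φ κ n) y.2 1 (Complex.I • 1)) (fch Φ κ n y.2) 1 ((y.1 * κ)⁻¹ • z) -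
            a1 * bm G ch ζ2 R (Pf (fch Φ κ' ((n + 1 : ℕ) : ℝ)) y.2 1 (Complex.I • 1) * (Yf (fch Φ κ' ((n + 1 : ℕ) : ℝ)) y.2 1 (Complex.I • 1))⁻¹) (fch Φ κ' ((n + 1 : ℕ) : ℝ) y.2) ((y.1 * κ')⁻¹ • z))) := by
      funext z
      rw [hLB', hLB, ALON_QF, ALON_sF]
      ring
    rw [hF, ALON_nnc]
    have hsum := ALON_add hfin (ALON_sub hsF1 hbt) (ALON_sub hbt (ALON_mul hFb' a1))
    have hE1 : R ^ (-((d : ℝ) / 2) - 1 / 2 + CS * ζ2) ≤ R ^ (-((d : ℝ) / 2) - 1 / 2 + (CS + CC) * ζ2) := by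
      refine Real.rpow_le_rpow_of_exponent_le hR1 ?_
      have : 0 ≤ CC * ζ2 := by positivity
      linarith
    have hE2 : R ^ (-((d : ℝ) / 2) - 1 + CC * ζ2) ≤ R ^ (-((d : ℝ) / 2) - 1 / 2 + (CS + CC) * ζ2) := by
      refine Real.rpow_le_rpow_of_exponent_le hR1 ?_
      have : 0 ≤ CS * ζ2 := by positivity
      linarith
    have hsum2 : nn G univ (fun z => (sF G r0 R (fP G Φ χ ch ζ ζ1 R 1) (QF (Γ := Γ) G χ ch ζ R (fun z => bm G ch ζ2 R (Pf (fch Φ κ n) y.2 1 (Complex.I • 1) * (Yf (fch Φ κ n) y.2 1 (Complex.I • 1))⁻¹) (fch Φ κ n y.2) ((y.1 * κ)⁻¹ • z))) z -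
            bt G Φ ch ζ2 R (Yf (fch Φ κ n) y.2 1 (Complex.I • 1)) (Pf (fch Φ κ n) y.2 1 (Complex.I • 1)) (fch Φ κ n y.2) 1 ((y.1 * κ)⁻¹ • z)) +
          (bt G Φ ch ζ2 R (Yf (fch Φ κ n) y.2 1 (Complex.I • 1)) (Pf (fch Φ κ n) y.2 1 (Complex.I • 1)) (fch Φ κ n y.2) 1 ((y.1 * κ)⁻¹ • z) -
            a1 * bm G ch ζ2 R (Pf (fch Φ κ' ((n + 1 : ℕ) : ℝ)) y.2 1 (Complex.I • 1) * (Yf (fch Φ κ' ((n + 1 : ℕ) : ℝ)) y.2 1 (Complex.I • 1))⁻¹) (fch Φ κ' ((n + 1 : ℕ) : ℝ) y.2) ((y.1 * κ')⁻¹ • z))) ≤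
          R ^ ζ2 * R ^ (-((d : ℝ) / 2) - 1 / 2 + (CS + CC) * ζ2) := by
      refine hsum.trans ?_
      have h30 : 4 * R ^ (-((d : ℝ) / 2) - 1 / 2 + (CS + CC) * ζ2) ≤ R ^ ζ2 * R ^ (-((d : ℝ) / 2) - 1 / 2 + (CS + CC) * ζ2) := mul_le_mul_of_nonneg_right t2 (by positivity)
      linarith
    calc _ ≤ R ^ (3 * (d : ℝ) / 2 + 2 * ζ2) * (R ^ ζ2 * R ^ (-((d : ℝ) / 2) - 1 / 2 + (CS + CC) * ζ2)) := mul_le_mul hc2 hsum2 (by unfold nn; positivity) (by positivity)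
      _ = R ^ ((d : ℝ) - 1 / 2 + (CS + CC + 3) * ζ2) := by rw [← Real.rpow_add hRp, ← Real.rpow_add hRp]; congr 1; ring
      _ ≤ R ^ ((d : ℝ) - 1 / 2 + C * ζ2) := by
        refine Real.rpow_le_rpow_of_exponent_le hR1 ?_
        have : (CS + CC + 3) * ζ2 ≤ C * ζ2 := mul_le_mul_of_nonneg_right (by rw [hCdef]; linarith) hζ2p.le
        linarith

end Pool.Agent.VD
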